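import Pool.Agent.Lib.MP_1a91b9_ntY.Ord

/-!
# The elliptic curves with complex multiplication by an order of a quadratic field and a point of order
two: reduction to four families, for an arbitrary property which is invariant under the changes of
variables and under the isogenies of degree two
-/

set_option autoImplicit false

namespace Pool.Agent.Lib.MP_1a91b9_ntW.J

open NumberField WeierstrassCurve
open Pool.Agent.Lib.MP_1a91b9_nuI (HasJ)
open Pool.Agent.Lib.MP_1a91b9_ntL (crv Endo2 endo2_iff)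
open Pool.Agent.Lib.MP_1a91b9_ntY (CMK Pt2 cmList crv_of_0 crv_of_1728 crv_of_j crv_three no_pt2
  hasJ_th)

/-- A property of the elliptic curves over `K` which is invariant under the changes of variables and
passes to the curves isogenous of degree two. -/
structure Inv2 {K : Type} [Field K] (Q : WeierstrassCurve K → Prop) : Prop where
  vc : ∀ {W : WeierstrassCurve K} {j : ℤ}, HasJ W j → ∀ C : VariableChange K, Q (C • W) → Q W
  isg : ∀ {a b : K} {j j' : ℤ}, b ≠ 0 → a ^ 2 - 4 * b ≠ 0 → HasJ (crv a b) j →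
    HasJ (crv (-2 * a) (a ^ 2 - 4 * b)) j' → Q (crv a b) → Q (crv (-2 * a) (a ^ 2 - 4 * b))

section
variable {K : Type} [Field K] {Q : WeierstrassCurve K → Prop}

theorem Inv2.of_vc (hQ : Inv2 Q) {a b : K} (h : Q (crv a b)) {W : WeierstrassCurve K} {j : ℤ}
    (hj : HasJ (crv a b) j) {C : VariableChange K} (hC : C • W = crv a b) : Q W := by
  have h1 : HasJ W j := by
    have h2 := Pool.Agent.Lib.MP_1a91b9_nuI.hasJ_change (crv a b) C⁻¹ j hj
    rwa [← hC, inv_smul_smul] at h2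
  refine hQ.vc h1 C ?_
  rw [hC]
  exact h

variable [CharZero K]

theorem Inv2.of_isg (hQ : Inv2 Q) {a b : K} {j j' : ℤ} (hb : b ≠ 0) (hb' : a ^ 2 - 4 * b ≠ 0)
    (hj : HasJ (crv a b) j) (hj' : HasJ (crv (-2 * a) (a ^ 2 - 4 * b)) j')
    (h4 : (crv (-2 * a) (a ^ 2 - 4 * b)).c₄ ≠ 0) (h6 : (crv (-2 * a) (a ^ 2 - 4 * b)).c₆ ≠ 0)
    (h : ∀ e : K, e ≠ 0 → Q (crv (e * a) (e ^ 2 * b))) {W : WeierstrassCurve K} (hW : W.Δ ≠ 0)
    (hWj : HasJ W j') : Q W := by
  have hΔ : (crv (-2 * a) (a ^ 2 - 4 * b)).Δ ≠ 0 := by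
    rw [Pool.Agent.Lib.MP_1a91b9_ntY.crv_Δ]
    have e1 : (16 : K) * (a ^ 2 - 4 * b) ^ 2 * ((-2 * a) ^ 2 - 4 * (a ^ 2 - 4 * b)) =
        2 ^ 8 * ((a ^ 2 - 4 * b) ^ 2 * b) := by ring
    rw [e1]
    exact mul_ne_zero (pow_ne_zero 8 two_ne_zero) (mul_ne_zero (pow_ne_zero 2 hb') hb)
  obtain ⟨e, he, C, hC⟩ := crv_of_j hW hWj hj' hΔ h4 h6
  have t1 : HasJ (crv (e * a) (e ^ 2 * b)) j := by
    have h1 := twd_hasJ hj e
    rwa [twd_crv] at h1
  have t2 : HasJ (crv (e * (-2 * a)) (e ^ 2 * (a ^ 2 - 4 * b))) j' := by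
    have h1 := twd_hasJ hj' e
    rwa [twd_crv] at h1
  have q1 : e * (-2 * a) = -2 * (e * a) := by ring
  have q2 : e ^ 2 * (a ^ 2 - 4 * b) = (e * a) ^ 2 - 4 * (e ^ 2 * b) := by ring
  have n1 : e ^ 2 * b ≠ 0 := mul_ne_zero (pow_ne_zero 2 he) hb
  have n2 : (e * a) ^ 2 - 4 * (e ^ 2 * b) ≠ 0 := by
    rw [← q2]
    exact mul_ne_zero (pow_ne_zero 2 he) hb'
  rw [q1, q2] at hC t2
  exact hQ.of_vc (hQ.isg n1 n2 t1 t2 (h e he)) t2 hC

omit [CharZero K] in
theorem crv_hasJ {a b : K} {j : ℤ}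
    (h : (16 * (a ^ 2 - 3 * b)) ^ 3 = (j : K) * (16 * b ^ 2 * (a ^ 2 - 4 * b))) :
    HasJ (crv a b) j := Pool.Agent.Lib.MP_1a91b9_ntY.hasJ_crv h

theorem Inv2.isg_i (hQ : Inv2 Q) (h : ∀ e : K, e ≠ 0 → Q (crv (3 * e) (2 * e ^ 2)))
    {W : WeierstrassCurve K} (hW : W.Δ ≠ 0) (hWj : HasJ W 287496) : Q W := by
  refine hQ.of_isg (a := 3) (b := 2) (j := 1728) (j' := 287496) (by norm_num) (by norm_num)
    (crv_hasJ ?_) (crv_hasJ ?_) ?_ ?_ (fun e he => ?_) hW hWj
  · push_cast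
    norm_num
  · push_cast
    norm_num
  · rw [Pool.Agent.Lib.MP_1a91b9_ntY.crv_c₄]
    norm_num
  · rw [Pool.Agent.Lib.MP_1a91b9_ntY.crv_c₆]
    norm_num
  · rw [mul_comm e 3, mul_comm (e ^ 2) 2]
    exact h e he

theorem Inv2.isg_3 (hQ : Inv2 Q) (h : ∀ e : K, e ≠ 0 → Q (crv (-3 * e) (3 * e ^ 2)))
    {W : WeierstrassCurve K} (hW : W.Δ ≠ 0) (hWj : HasJ W 54000) : Q W := by
  refine hQ.of_isg (a := -3) (b := 3) (j := 0) (j' := 54000) (by norm_num) (by norm_num)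
    (crv_hasJ ?_) (crv_hasJ ?_) ?_ ?_ (fun e he => ?_) hW hWj
  · push_cast
    norm_num
  · push_cast
    norm_num
  · rw [Pool.Agent.Lib.MP_1a91b9_ntY.crv_c₄]
    norm_num
  · rw [Pool.Agent.Lib.MP_1a91b9_ntY.crv_c₆]
    norm_num
  · rw [mul_comm e (-3), mul_comm (e ^ 2) 3]
    exact h e he

theorem Inv2.isg_7 (hQ : Inv2 Q) (h : ∀ e : K, e ≠ 0 → Q (crv (21 * e) (112 * e ^ 2)))
    {W : WeierstrassCurve K} (hW : W.Δ ≠ 0) (hWj : HasJ W 16581375) : Q W := by
  refine hQ.of_isg (a := 21) (b := 112) (j := -3375) (j' := 16581375) (by norm_num)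
    (by norm_num) (crv_hasJ ?_) (crv_hasJ ?_) ?_ ?_ (fun e he => ?_) hW hWj
  · push_cast
    norm_num
  · push_cast
    norm_num
  · rw [Pool.Agent.Lib.MP_1a91b9_ntY.crv_c₄]
    norm_num
  · rw [Pool.Agent.Lib.MP_1a91b9_ntY.crv_c₆]
    norm_num
  · rw [mul_comm e 21, mul_comm (e ^ 2) 112]
    exact h e he

end

/-- **Reduction to the maximal orders.** -/
theorem Inv2.star {K : Type} [Field K] [NumberField K] (hK : Module.finrank ℚ K = 2)
    {Q : WeierstrassCurve K → Prop} (hQ : Inv2 Q)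
    (h1 : (∃ s : K, s ^ 2 = -1) → ∀ b : K, b ≠ 0 → Q (crv 0 b))
    (h2 : (∃ s : K, s ^ 2 = -2) → ∀ e : K, e ≠ 0 → Q (crv (4 * e) (2 * e ^ 2)))
    (h3 : (∃ s : K, s ^ 2 = -3) → ∀ e : K, e ≠ 0 → Q (crv (-3 * e) (3 * e ^ 2)))
    (h7 : (∃ s : K, s ^ 2 = -7) → ∀ e : K, e ≠ 0 → Q (crv (21 * e) (112 * e ^ 2)))
    {W : WeierstrassCurve K} (hW : CMK W) (hP : Pt2 W) : Q W := by
  obtain ⟨hΔ, j, D, s, hm, hs, hj⟩ := hW
  simp only [cmList, List.mem_cons, Prod.mk.injEq, List.not_mem_nil, or_false] at hm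
  rcases hm with ⟨rfl, rfl⟩ | ⟨rfl, rfl⟩ | ⟨rfl, rfl⟩ | ⟨rfl, rfl⟩ | ⟨rfl, rfl⟩ | ⟨rfl, rfl⟩ |
    ⟨rfl, rfl⟩ | ⟨rfl, rfl⟩ | ⟨rfl, rfl⟩ | ⟨rfl, rfl⟩ | ⟨rfl, rfl⟩ | ⟨rfl, rfl⟩ | ⟨rfl, rfl⟩
  · have k := h3 ⟨s, by rw [hs]; norm_num⟩
    obtain ⟨e, he, C, hC⟩ := crv_of_0 hΔ hj hP
    refine hQ.of_vc (k e he) (crv_hasJ (j := 0) ?_) hC
    push_cast
    ring
  · exact hQ.isg_3 (h3 ⟨s, by rw [hs]; norm_num⟩) hΔ hj
  · exact absurd hP (no_pt2 hK hΔ (p := -120) (q := 506) (by decide) (by decide) (by decide)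
      (by norm_num) hj)
  · have k := h1 ⟨s / 2, by rw [div_pow, hs]; norm_num⟩
    obtain ⟨b, hb, C, hC⟩ := crv_of_1728 hΔ hj
    refine hQ.of_vc (k b hb) (crv_hasJ (j := 1728) ?_) hC
    push_cast
    ring
  · have k := h1 ⟨s / 2, by rw [div_pow, hs]; norm_num⟩
    refine hQ.isg_i (fun e he => ?_) hΔ hj
    refine hQ.of_vc (k (-e ^ 2) (neg_ne_zero.2 (pow_ne_zero 2 he))) (crv_hasJ (j := 1728) ?_)
      (crv_three e)
    push_cast
    ring
  · have k := h7 ⟨s, by rw [hs]; norm_num⟩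
    have t1 : HasJ (crv (21 : K) 112) (-3375) := crv_hasJ (by push_cast; norm_num)
    obtain ⟨e, he, C, hC⟩ := crv_of_j hΔ hj t1 (by rw [Pool.Agent.Lib.MP_1a91b9_ntY.crv_Δ]; norm_num)
      (by rw [Pool.Agent.Lib.MP_1a91b9_ntY.crv_c₄]; norm_num)
      (by rw [Pool.Agent.Lib.MP_1a91b9_ntY.crv_c₆]; norm_num)
    have t2 := twd_hasJ t1 e
    rw [twd_crv] at t2
    rw [mul_comm e 21, mul_comm (e ^ 2) 112] at hC t2
    exact hQ.of_vc (k e he) t2 hC
  · exact hQ.isg_7 (h7 ⟨s, by rw [hs]; norm_num⟩) hΔ hj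
  · have k := h2 ⟨s / 2, by rw [div_pow, hs]; norm_num⟩
    have t1 : HasJ (crv (4 : K) 2) 8000 := crv_hasJ (by push_cast; norm_num)
    obtain ⟨e, he, C, hC⟩ := crv_of_j hΔ hj t1 (by rw [Pool.Agent.Lib.MP_1a91b9_ntY.crv_Δ]; norm_num)
      (by rw [Pool.Agent.Lib.MP_1a91b9_ntY.crv_c₄]; norm_num)
      (by rw [Pool.Agent.Lib.MP_1a91b9_ntY.crv_c₆]; norm_num)
    have t2 := twd_hasJ t1 e
    rw [twd_crv] at t2
    rw [mul_comm e 4, mul_comm (e ^ 2) 2] at hC t2
    exact hQ.of_vc (k e he) t2 hC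
  · exact absurd hP (no_pt2 hK hΔ (p := -264) (q := 1694) (by decide) (by decide) (by decide)
      (by norm_num) hj)
  · exact absurd hP (no_pt2 hK hΔ (p := -152) (q := 722) (by decide) (by decide) (by decide)
      (by norm_num) hj)
  · exact absurd hP (no_pt2 hK hΔ (p := -3440) (q := 77658) (by decide) (by decide) (by decide)
      (by norm_num) hj)
  · exact absurd hP (no_pt2 hK hΔ (p := -29480) (q := 1948226) (by decide) (by decide)
      (by decide) (by norm_num) hj)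
  · exact absurd hP (no_pt2 hK hΔ (p := -8697680) (q := 9873093538) (by decide) (by decide)
      (by decide) (by norm_num) hj)

/-- **Reduction to the curves with an endomorphism of degree two over `K`, and to
`y² = x³ + e³`.** -/
theorem Inv2.star_endo {K : Type} [Field K] [NumberField K] (hK : Module.finrank ℚ K = 2)
    {Q : WeierstrassCurve K → Prop} (hQ : Inv2 Q) (h : ∀ V : WeierstrassCurve K, Endo2 V → Q V)
    (h3 : (∃ s : K, s ^ 2 = -3) → ∀ e : K, e ≠ 0 → Q (crv (-3 * e) (3 * e ^ 2)))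
    {W : WeierstrassCurve K} (hW : CMK W) (hP : Pt2 W) : Q W := by
  have hone : ∀ a b : K, (1 : VariableChange K) • crv a b = crv a b := fun a b => one_smul _ _
  refine hQ.star hK (fun ⟨s, hs⟩ b hb => ?_) (fun ⟨s, hs⟩ e he => ?_) h3 (fun ⟨s, hs⟩ e he => ?_)
    hW hP
  · exact h _ ((endo2_iff _).2 (Or.inl ⟨s, b, hs, hb, 1, hone _ _⟩))
  · exact h _ ((endo2_iff _).2 (Or.inr (Or.inl ⟨s, e, hs, he, 1, hone _ _⟩)))
  · have hθ : ((1 + s) / 2 : K) ^ 2 = (1 + s) / 2 - 2 := by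
      field_simp
      linear_combination hs
    obtain ⟨k4, kΔ⟩ := hasJ_th hθ
    have t0 : HasJ (crv (1 + (1 - (1 + s) / 2) ^ 4) ((1 - (1 + s) / 2) ^ 4) : WeierstrassCurve K)
        (-3375) := by
      unfold HasJ
      rw [k4, kΔ]
      push_cast
      norm_num
    have t1 : HasJ (crv (21 * e) (112 * e ^ 2)) (-3375) := crv_hasJ (by
      push_cast
      ring)
    have t2 : (crv (21 * e) (112 * e ^ 2)).Δ ≠ 0 := by
      rw [Pool.Agent.Lib.MP_1a91b9_ntY.crv_Δ]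
      have e1 : 16 * (112 * e ^ 2) ^ 2 * ((21 * e) ^ 2 - 4 * (112 * e ^ 2)) = -1404928 * e ^ 6 := by
        ring
      rw [e1]
      exact mul_ne_zero (by norm_num) (pow_ne_zero 6 he)
    obtain ⟨d, hd, C, hC⟩ := crv_of_j t2 t1 t0 (by rw [kΔ]; norm_num) (by rw [k4]; norm_num) (by
      intro h6
      have r := (crv (1 + (1 - (1 + s) / 2) ^ 4) ((1 - (1 + s) / 2) ^ 4) :
        WeierstrassCurve K).c_relation
      rw [k4, kΔ, h6] at r
      norm_num at r)
    exact h _ ((endo2_iff _).2 (Or.inr (Or.inr ⟨_, d, hθ, hd, C, hC⟩)))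

/-! ### The property of the proportion, over a fixed extension -/

section
variable {K : Type} [Field K] [NumberField K]

/-- The result for the twists of `W` over the extension `F`, in the class `u` modulo `m`. -/
def MQF (F : Type) [Field F] [NumberField F] [Algebra K F] (m u : 𝓞 K) (c : ℝ)
    (W : WeierstrassCurve K) : Prop :=
  PropGE K m u (fun d => RkZ ((twd W (d : K)).map (algebraMap K F))) c

theorem MQW.mqf {l : ℕ} {H : 𝓞 K → 𝓞 K → Prop} {W : WeierstrassCurve K} {c : ℝ}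
    (h : MQW K l H W c) (F : Type) [Field F] [NumberField F] [Algebra K F]
    (hF : IntermediateField.adjoin K {x : F | ∃ c : K, x ^ l = algebraMap K F c} = ⊤)
    {m u : 𝓞 K} (hmu : H m u) : MQF F m u (c ^ Module.finrank K F) W := h F hF m u hmu

/-- for `y² = x³ + a x² + b x` -/
theorem mqf_crv {F : Type} [Field F] [NumberField F] [Algebra K F] {m u : 𝓞 K} {c : ℝ} {a b : K} :
    MQF F m u c (crv a b) ↔ PropGE K m u (fun d => RkZ (⟨0, algebraMap K F (d * a), 0,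
      algebraMap K F ((d : K) ^ 2 * b), 0⟩ : WeierstrassCurve F)) c := by
  have e : (fun d : 𝓞 K => RkZ ((twd (crv a b) (d : K)).map (algebraMap K F))) =
      fun d : 𝓞 K => RkZ (⟨0, algebraMap K F (d * a), 0, algebraMap K F ((d : K) ^ 2 * b), 0⟩ :
        WeierstrassCurve F) := by
    funext d
    rw [twd_crv]
    congr 1
    exact WeierstrassCurve.ext (map_zero _) rfl (map_zero _) rfl (map_zero _)
  unfold MQF
  rw [e]

theorem inv2_mqf (F : Type) [Field F] [NumberField F] [Algebra K F] (m u : 𝓞 K) (c : ℝ) :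
    Inv2 (MQF F m u c : WeierstrassCurve K → Prop) where
  vc := by
    intro W j hj C h1
    have e : (fun d : 𝓞 K => RkZ ((twd (C • W) (d : K)).map (algebraMap K F))) =
        fun d : 𝓞 K => RkZ ((twd W (d : K)).map (algebraMap K F)) := by
      funext d
      rw [← twd_vc W C, ← WeierstrassCurve.map_variableChange]
      exact propext (RkZ.vc (hasJ_map _ (twd_hasJ hj _)) _)
    unfold MQF at h1 ⊢
    rw [e] at h1
    exact h1
  isg := by
    intro a b j j' hb hb' hj hj' h1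
    rw [mqf_crv] at h1 ⊢
    have e : (fun d : 𝓞 K => RkZ (⟨0, algebraMap K F (d * (-2 * a)), 0,
        algebraMap K F ((d : K) ^ 2 * (a ^ 2 - 4 * b)), 0⟩ : WeierstrassCurve F)) =
        fun d : 𝓞 K => RkZ (⟨0, algebraMap K F (d * a), 0, algebraMap K F ((d : K) ^ 2 * b), 0⟩ :
          WeierstrassCurve F) := by
      funext d
      by_cases hd : (d : K) = 0
      · rw [hd]
        simp only [zero_mul, ne_eq, OfNat.ofNat_ne_zero, not_false_eq_true, zero_pow]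
      have e1 : ∀ x y : K, (⟨0, algebraMap K F (d * x), 0, algebraMap K F ((d : K) ^ 2 * y), 0⟩ :
          WeierstrassCurve F) = Pool.Agent.Lib.MP_1a91b9_nuI.E2 (algebraMap K F (d * x))
            (algebraMap K F ((d : K) ^ 2 * y)) := fun _ _ => rfl
      have e2 : ∀ x y : K, Pool.Agent.Lib.MP_1a91b9_nuI.E2 (algebraMap K F (d * x))
          (algebraMap K F ((d : K) ^ 2 * y)) = (twd (crv x y) (d : K)).map (algebraMap K F) := by
        intro x y
        rw [twd_crv]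
        exact WeierstrassCurve.ext (map_zero _).symm rfl (map_zero _).symm rfl (map_zero _).symm
      have e3 : Pool.Agent.Lib.MP_1a91b9_nuI.E2 (algebraMap K F (d * (-2 * a)))
          (algebraMap K F ((d : K) ^ 2 * (a ^ 2 - 4 * b))) =
          Pool.Agent.Lib.MP_1a91b9_nuI.E2 (-2 * algebraMap K F (d * a))
            (algebraMap K F (d * a) ^ 2 - 4 * algebraMap K F ((d : K) ^ 2 * b)) := by
        congr 1
        · simp only [map_mul, map_neg, map_ofNat]
          ring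
        · simp only [map_mul, map_sub, map_pow, map_ofNat]
          ring
      have k1 : HasJ (Pool.Agent.Lib.MP_1a91b9_nuI.E2 (algebraMap K F (d * a))
          (algebraMap K F ((d : K) ^ 2 * b))) j := by
        rw [e2]
        exact hasJ_map _ (twd_hasJ hj _)
      have k2 : HasJ (Pool.Agent.Lib.MP_1a91b9_nuI.E2 (-2 * algebraMap K F (d * a))
          (algebraMap K F (d * a) ^ 2 - 4 * algebraMap K F ((d : K) ^ 2 * b))) j' := by
        rw [← e3, e2]
        exact hasJ_map _ (twd_hasJ hj' _)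
      have k3 : algebraMap K F ((d : K) ^ 2 * b) ≠ 0 :=
        (map_ne_zero _).2 (mul_ne_zero (pow_ne_zero 2 hd) hb)
      have k4 : algebraMap K F (d * a) ^ 2 - 4 * algebraMap K F ((d : K) ^ 2 * b) ≠ 0 := by
        have h5 : algebraMap K F (d * a) ^ 2 - 4 * algebraMap K F ((d : K) ^ 2 * b) =
            algebraMap K F ((d : K) ^ 2 * (a ^ 2 - 4 * b)) := by
          simp only [map_mul, map_sub, map_pow, map_ofNat]
          ring
        rw [h5]
        exact (map_ne_zero _).2 (mul_ne_zero (pow_ne_zero 2 hd) hb')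
      rw [e1, e1, e3]
      exact propext (Pool.Agent.Lib.MP_1a91b9_ntY.RkZ.two k3 k4 k1 k2)
    rw [e]
    exact h1

end

end Pool.Agent.Lib.MP_1a91b9_ntW.J
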