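import Pool.Agent.Lib.MP_1a91b9_ntW.J.KSt2
import Pool.Agent.Lib.MP_1a91b9_ntW.J.StarG
import Pool.Agent.Lib.MP_1a91b9_ntW.J.TrH

/-!
# The assembly, over a fixed extension

Over `ℚ(√-3)` the constant depends on whether `i` is in `F`.
-/

set_option autoImplicit false

namespace Pool.Agent.Lib.MP_1a91b9_ntW.J

open NumberField WeierstrassCurve
open Pool.Agent.Lib.MP_1a91b9_ntL (Endo2 crv endo2_iff)
open Pool.Agent.Lib.MP_1a91b9_ntI (excl1 excl2 excl3 excl4 excl5 excl6 th7 nsf_i nsf_s sf_t np_t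
  prime_w emp_t K3 iso_w3)
open Pool.Agent.Lib.MP_1a91b9_nuI (HasJ)
open Pool.Agent.Lib.MP_1a91b9_ntQ (K4)
open Pool.Agent.Lib.MP_1a91b9_ntY (CMK Pt2)

noncomputable section

/-- the constant over `ℚ(√-3)` if `i` is in the extension -/
def cJ : ℝ := √(cI / 2)

/-- over a field generated by a square root of `-3`, for the extensions without square root of `-1` -/
theorem h3N_of (h : ∀ {e : K3}, e ≠ 0 → MQH K3 2 (fun F _ => ClsN K3 F) (-3 * e) (3 * e ^ 2) cI)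
    {K : Type} [Field K] [NumberField K] (hK : Module.finrank ℚ K = 2) {s : K} (hs : s ^ 2 = -3)
    {e : K} (he : e ≠ 0) : MQH K 2 (fun F _ => ClsN K F) (-3 * e) (3 * e ^ 2) cI := by
  obtain ⟨w, hw⟩ : ∃ w : K, w = (1 + s) / 2 := ⟨_, rfl⟩
  have hsw : s = 2 * w - 1 := by
    rw [hw, mul_div_cancel₀ _ (two_ne_zero' K)]
    ring
  have hw2 : w ^ 2 = w - 1 := by
    have h4 : (4 : K) ≠ 0 := by norm_num
    rw [hsw] at hs
    refine mul_left_cancel₀ h4 ?_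
    linear_combination hs
  obtain ⟨θ', -, hθ'⟩ := to_int (x := w) (t := 1) (n := 1) (by rw [hw2]; push_cast; ring)
  have hθ2 : θ' ^ 2 = θ' - 1 := by rw [hθ']; push_cast; ring
  obtain ⟨f, -⟩ := iso_w3 hK hθ2
  have h1 : MQH K3 2 (fun F _ => ClsN K3 F) (-3 * f.symm e) (3 * (f.symm e) ^ 2) cI := by
    refine h ?_
    rw [Ne, map_eq_zero_iff _ f.symm.injective]
    exact he
  have h2 := MQH.tr f (ClsN.tr f) h1
  rwa [map_mul, map_mul, map_neg, map_pow, map_ofNat, f.apply_symm_apply] at h2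

/-- over a field generated by a square root of `-3` -/
theorem h3J_of (h : ∀ {e : K3}, e ≠ 0 → MQG K3 2 (Cls2 K3) (-3 * e) (3 * e ^ 2) cJ)
    {K : Type} [Field K] [NumberField K] (hK : Module.finrank ℚ K = 2) {s : K} (hs : s ^ 2 = -3)
    {e : K} (he : e ≠ 0) : MQG K 2 (Cls2 K) (-3 * e) (3 * e ^ 2) cJ := by
  obtain ⟨w, hw⟩ : ∃ w : K, w = (1 + s) / 2 := ⟨_, rfl⟩
  have hsw : s = 2 * w - 1 := by
    rw [hw, mul_div_cancel₀ _ (two_ne_zero' K)]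
    ring
  have hw2 : w ^ 2 = w - 1 := by
    have h4 : (4 : K) ≠ 0 := by norm_num
    rw [hsw] at hs
    refine mul_left_cancel₀ h4 ?_
    linear_combination hs
  obtain ⟨θ', -, hθ'⟩ := to_int (x := w) (t := 1) (n := 1) (by rw [hw2]; push_cast; ring)
  have hθ2 : θ' ^ 2 = θ' - 1 := by rw [hθ']; push_cast; ring
  obtain ⟨f, -⟩ := iso_w3 hK hθ2
  have h1 : MQG K3 2 (Cls2 K3) (-3 * f.symm e) (3 * (f.symm e) ^ 2) cJ := by
    refine h ?_
    rw [Ne, map_eq_zero_iff _ f.symm.injective]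
    exact he
  have h2 := MQG.tr f (Cls2.tr f) h1
  rwa [map_mul, map_mul, map_neg, map_pow, map_ofNat, f.apply_symm_apply] at h2

section
variable {K : Type} [Field K] [NumberField K]

/-- **The result over a fixed extension**, from the results over `ℚ(i)` and `ℚ(√-3)`. -/
theorem kstarG_of
    (H4 : ∀ {K : Type} [Field K] [NumberField K], Module.finrank ℚ K = 2 → ∀ {i : K}, i ^ 2 = -1 →
      ∀ {W : WeierstrassCurve K}, Endo2 W → MQW K 4 (Cls2 K) W cR)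
    (H3 : ∀ {K : Type} [Field K] [NumberField K], Module.finrank ℚ K = 2 → ∀ {s : K}, s ^ 2 = -3 →
      ∀ {e : K}, e ≠ 0 → MQH K 2 (fun F _ => ClsN K F) (-3 * e) (3 * e ^ 2) cI)
    (H3' : ∀ {K : Type} [Field K] [NumberField K], Module.finrank ℚ K = 2 → ∀ {s : K}, s ^ 2 = -3 →
      ∀ {e : K}, e ≠ 0 → MQG K 2 (Cls2 K) (-3 * e) (3 * e ^ 2) cJ)
    (hK : Module.finrank ℚ K = 2) {l : ℕ} (hl : l = 2 ∨ l = 4 ∧ ∃ i : K, i ^ 2 = -1)
    (F : Type) [Field F] [NumberField F] [Algebra K F]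
    (hF : IntermediateField.adjoin K {x : F | ∃ c : K, x ^ l = algebraMap K F c} = ⊤) {c : ℝ}
    (hI : Prime (2 : 𝓞 K) → (¬ ∃ x : F, x ^ 2 = -1) → c = cI)
    (hJ : Prime (2 : 𝓞 K) → (∃ x : F, x ^ 2 = -1) → c = cJ)
    (hS : ¬ Prime (2 : 𝓞 K) → Squarefree (2 : 𝓞 K) → c = cS)
    (hR : ¬ Squarefree (2 : 𝓞 K) → c = cR) {W : WeierstrassCurve K} (hW : CMK W) (hP : Pt2 W)
    {m u : 𝓞 K} (hmu : Cls2 K m u) :
    MQF F m u (c ^ Module.finrank K F) W := by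
  refine (inv2_mqf F m u (c ^ Module.finrank K F)).star_endo hK (fun V hV => ?_)
    (fun hs e he => ?_) hW hP
  · refine MQW.mqf (l := l) (H := Cls2 K) ?_ F hF hmu
    rcases (endo2_iff V).1 hV with ⟨i, b, hi, -, -⟩ | ⟨s, d, hs, -, -⟩ | ⟨θ, d, hθ, -, -⟩
    · obtain ⟨i', -, hi'⟩ := to_int (x := i) (t := 0) (n := 1) (by rw [hi]; push_cast; ring)
      have hi2 : i' ^ 2 = -1 := by rw [hi']; push_cast; ring
      rw [hR (nsf_i hK hi2)]
      have h4 := H4 hK hi hV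
      rcases hl with rfl | ⟨rfl, -⟩
      · exact h4.two_of_four
      · exact h4
    · obtain ⟨s', -, hs'⟩ := to_int (x := s) (t := 0) (n := 2) (by rw [hs]; push_cast; ring)
      have hs2 : s' ^ 2 = -2 := by rw [hs']; push_cast; ring
      rw [hR (nsf_s hK hs2)]
      rcases hl with rfl | ⟨-, i, hi⟩
      · exact mqwK8 hK hs hV
      · exact (excl1 hK hs hi).elim
    · obtain ⟨θ', -, hθ'⟩ := to_int (x := θ) (t := 1) (n := 2) (by rw [hθ]; push_cast; ring)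
      have hθ2 : θ' ^ 2 = θ' - 2 := by rw [hθ']; push_cast; ring
      rw [hS (np_t hK hθ2) (sf_t hK (emp_t hθ2) hθ2)]
      rcases hl with rfl | ⟨-, i, hi⟩
      · exact Pool.Agent.Lib.MP_1a91b9_ntV.J.mqwK7 hK hθ hV
      · exact (excl3 hK (th7 hθ) hi).elim
  · obtain ⟨s, hs⟩ := hs
    obtain ⟨w, hw⟩ : ∃ w : K, w = (1 + s) / 2 := ⟨_, rfl⟩
    have hsw : s = 2 * w - 1 := by
      rw [hw, mul_div_cancel₀ _ (two_ne_zero' K)]
      ring
    have hw2 : w ^ 2 = w - 1 := by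
      have h4 : (4 : K) ≠ 0 := by norm_num
      rw [hsw] at hs
      refine mul_left_cancel₀ h4 ?_
      linear_combination hs
    obtain ⟨θ', -, hθ'⟩ := to_int (x := w) (t := 1) (n := 1) (by rw [hw2]; push_cast; ring)
    have hθ2 : θ' ^ 2 = θ' - 1 := by rw [hθ']; push_cast; ring
    rcases hl with rfl | ⟨-, i, hi⟩
    · by_cases hi : ∃ x : F, x ^ 2 = -1
      · rw [hJ (prime_w hK hθ2) hi]
        exact mqf_crv.2 (H3' hK hs he F hF m u hmu)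
      · rw [hI (prime_w hK hθ2) hi]
        exact mqf_crv.2 (H3 hK hs he F hF m u ⟨hmu, hi⟩)
    · exact (excl6 hK hi hs).elim

open Classical in
/-- **The result**, explicitly, from the results over `ℚ(i)` and `ℚ(√-3)`. -/
theorem kstarG_expl
    (H4 : ∀ {K : Type} [Field K] [NumberField K], Module.finrank ℚ K = 2 → ∀ {i : K}, i ^ 2 = -1 →
      ∀ {W : WeierstrassCurve K}, Endo2 W → MQW K 4 (Cls2 K) W cR)
    (H3 : ∀ {K : Type} [Field K] [NumberField K], Module.finrank ℚ K = 2 → ∀ {s : K}, s ^ 2 = -3 →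
      ∀ {e : K}, e ≠ 0 → MQH K 2 (fun F _ => ClsN K F) (-3 * e) (3 * e ^ 2) cI)
    (H3' : ∀ {K : Type} [Field K] [NumberField K], Module.finrank ℚ K = 2 → ∀ {s : K}, s ^ 2 = -3 →
      ∀ {e : K}, e ≠ 0 → MQG K 2 (Cls2 K) (-3 * e) (3 * e ^ 2) cJ)
    (hK : Module.finrank ℚ K = 2) (a b : K) (hE : b * (a ^ 2 - 4 * b) ≠ 0) (j D : ℤ)
    (hjD : (j, D) ∈ Pool.Agent.Lib.MP_1a91b9_ntY.cmList)
    (hj : 256 * (a ^ 2 - 3 * b) ^ 3 = j * (b ^ 2 * (a ^ 2 - 4 * b))) (hD : ∃ s : K, s ^ 2 = D)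
    (l : ℕ) (hl : l = 2 ∨ l = 4 ∧ ∃ i : K, i ^ 2 = -1)
    (F : Type) [Field F] [NumberField F] [Algebra K F]
    (hF : IntermediateField.adjoin K {x : F | ∃ c : K, x ^ l = algebraMap K F c} = ⊤)
    (n : ℕ) (m u : 𝓞 K) (hm : m ∣ 2 ^ n) (hu : ∀ p, Prime p → ¬ (p ^ 2 ∣ m ∧ p ^ 2 ∣ u))
    (c : ℝ)
    (hc : c = if Prime (2 : 𝓞 K) then (if ∃ x : F, x ^ 2 = -1 then
        √((∏' i : ℕ, (1 + 1 / (2 : ℝ) ^ (2 * i + 1))⁻¹) / 2) else
        ∏' i : ℕ, (1 + 1 / (2 : ℝ) ^ (2 * i + 1))⁻¹) else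
      if Squarefree (2 : 𝓞 K) then ∏' i : ℕ, (1 - 1 / (2 : ℝ) ^ (i + 1)) else
      ∏' i : ℕ, (1 + 1 / (2 : ℝ) ^ (i + 1))⁻¹) (ε : ℝ) (hε : 0 < ε) :
    ∀ᶠ X : ℝ in Filter.atTop, c ^ Module.finrank K F - ε ≤
      (Nat.card {d : 𝓞 K // Squarefree d ∧ m ∣ d - u ∧ |Algebra.norm ℤ d| ≤ X ∧
        ∀ W : WeierstrassCurve F,
          W = ⟨0, algebraMap K F (d * a), 0, algebraMap K F ((d : K) ^ 2 * b), 0⟩ →
          (∃ g : ℂ → ℂ, Differentiable ℂ g ∧ (∀ s : ℂ, 3 / 2 < s.re → g s = W.LSeries s) ∧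
            g 1 ≠ 0) ∧ Finite W.toAffine.Point} : ℝ) /
        (Nat.card {d : 𝓞 K // Squarefree d ∧ m ∣ d - u ∧ |Algebra.norm ℤ d| ≤ X} : ℝ) := by
  have hΔ : (crv a b).Δ ≠ 0 := by
    rw [crv_disc]
    have e : b ^ 2 * (a ^ 2 - 4 * b) = b * (b * (a ^ 2 - 4 * b)) := by ring
    rw [e]
    exact mul_ne_zero (by norm_num) (mul_ne_zero (left_ne_zero_of_mul hE) hE)
  obtain ⟨s, hs⟩ := hD
  have hW : CMK (crv a b) := ⟨hΔ, j, D, s, hjD, hs, hasJ_crv_iff.2 hj⟩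
  have hP : Pt2 (crv a b) := by
    refine ⟨0, ?_⟩
    unfold crv WeierstrassCurve.b₂ WeierstrassCurve.b₄ WeierstrassCurve.b₆
    ring
  have hps : Prime (2 : 𝓞 K) → Squarefree (2 : 𝓞 K) := fun h => h.irreducible.squarefree
  have h1 : MQF F m u (c ^ Module.finrank K F) (crv a b) := by
    refine kstarG_of H4 H3 H3' hK hl F hF (fun h h' => ?_) (fun h h' => ?_) (fun h h' => ?_)
      (fun h => ?_) hW hP ⟨⟨n, hm⟩, hu⟩
    · rw [hc, if_pos h, if_neg h']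
      rfl
    · rw [hc, if_pos h, if_pos h']
      rfl
    · rw [hc, if_neg h, if_pos h']
      rfl
    · rw [hc, if_neg (mt hps h), if_neg h]
      rfl
  have h2 := mqf_crv.1 h1 ε hε
  filter_upwards [h2] with X hX
  refine hX.trans (le_of_eq ?_)
  congr 2
  refine Nat.card_congr (Equiv.subtypeEquivRight fun d => ?_)
  refine and_congr_right fun _ => and_congr_right fun _ => and_congr_right fun _ => ?_
  exact ⟨fun h W hW => hW ▸ h, fun h => h _ rfl⟩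

end

end

end Pool.Agent.Lib.MP_1a91b9_ntW.J
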