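import Pool.Agent.Lib.MP_1a91b9_ntW.J.TrK
import Pool.Agent.Lib.MP_1a91b9_ntI.Iq

/-!
# Monotonicity of the lower bound for the proportion, if there are finitely many units
-/

set_option autoImplicit false

namespace Pool.Agent.Lib.MP_1a91b9_ntW.J

open NumberField

variable {K : Type} [Field K] [NumberField K]

/-- there are finitely many elements of bounded norm -/
theorem finite_norm_le [Finite (𝓞 K)ˣ] (X : ℝ) :
    {d : 𝓞 K | d ≠ 0 ∧ ((|Algebra.norm ℤ d| : ℤ) : ℝ) ≤ X}.Finite := by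
  refine Set.Finite.of_finite_fibers (fun d : 𝓞 K => Ideal.span {d}) ?_ ?_
  · refine (Ideal.finite_setOfPred_absNorm_le (S := 𝓞 K) ⌊X⌋₊).subset ?_
    rintro I ⟨d, ⟨-, hd⟩, rfl⟩
    rw [Set.mem_ofPred_eq, Ideal.absNorm_span_singleton]
    refine Nat.le_floor ?_
    have h : ((Algebra.norm ℤ d).natAbs : ℝ) = ((|Algebra.norm ℤ d| : ℤ) : ℝ) := by
      rw [Int.abs_eq_natAbs, Int.cast_natCast]
    rw [h]
    exact hd
  · rintro I ⟨d, -, rfl⟩
    refine (Set.finite_range (fun u : (𝓞 K)ˣ => d * (u : 𝓞 K))).subset ?_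
    rintro x ⟨-, hx⟩
    have h1 : Ideal.span {x} = Ideal.span {d} := hx
    obtain ⟨u, hu⟩ := Ideal.span_singleton_eq_span_singleton.1 h1.symm
    exact ⟨u, hu⟩

/-- **Monotonicity.** -/
theorem PropGE.mono [Finite (𝓞 K)ˣ] {m u : 𝓞 K} {P Q : 𝓞 K → Prop} {c : ℝ}
    (h : PropGE K m u P c) (hPQ : ∀ d : 𝓞 K, Squarefree d → m ∣ d - u → P d → Q d) :
    PropGE K m u Q c := by
  intro ε hε
  filter_upwards [h ε hε] with X hX
  refine hX.trans ?_
  refine div_le_div_of_nonneg_right ?_ (Nat.cast_nonneg _)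
  have hfin : Finite {d : 𝓞 K // Squarefree d ∧ m ∣ d - u ∧ |Algebra.norm ℤ d| ≤ X ∧ Q d} := by
    refine ((finite_norm_le (K := K) X).subset ?_ : Set.Finite _)
    rintro d ⟨h1, -, h3, -⟩
    exact ⟨h1.ne_zero, h3⟩
  have h1 : Nat.card {d : 𝓞 K // Squarefree d ∧ m ∣ d - u ∧ |Algebra.norm ℤ d| ≤ X ∧ P d} ≤
      Nat.card {d : 𝓞 K // Squarefree d ∧ m ∣ d - u ∧ |Algebra.norm ℤ d| ≤ X ∧ Q d} := by
    refine Nat.card_le_card_of_injective
      (fun d => ⟨d.1, d.2.1, d.2.2.1, d.2.2.2.1, hPQ d.1 d.2.1 d.2.2.1 d.2.2.2.2⟩) ?_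
    intro x y hxy
    exact Subtype.ext (congrArg (fun z => z.1) hxy)
  exact_mod_cast h1

/-- an imaginary quadratic field has finitely many units -/
theorem finite_units (hK : Module.finrank ℚ K = 2) (hr : IsEmpty (K →+* ℝ)) : Finite (𝓞 K)ˣ := by
  have h : ∀ u : (𝓞 K)ˣ, u ∈ rootsOfUnity 12 (𝓞 K) := by
    intro u
    rw [mem_rootsOfUnity, Units.ext_iff, Units.val_pow_eq_pow_val, Units.val_one]
    rcases Pool.Agent.Lib.MP_1a91b9_ntI.unit_cases hK hr u.isUnit with h | h | h | h | h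
    · rw [h]
      ring
    · rw [h]
      ring
    · have e : (u : 𝓞 K) ^ 12 = ((u : 𝓞 K) ^ 2) ^ 6 := by ring
      rw [e, h]
      ring
    · have h3 : (u : 𝓞 K) ^ 3 = -1 := by
        linear_combination ((u : 𝓞 K) + 1) * h
      have e : (u : 𝓞 K) ^ 12 = ((u : 𝓞 K) ^ 3) ^ 4 := by ring
      rw [e, h3]
      ring
    · have h3 : (u : 𝓞 K) ^ 3 = 1 := by
        linear_combination ((u : 𝓞 K) - 1) * h
      have e : (u : 𝓞 K) ^ 12 = ((u : 𝓞 K) ^ 3) ^ 4 := by ring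
      rw [e, h3]
      ring
  exact Finite.of_injective (fun u => (⟨u, h u⟩ : rootsOfUnity 12 (𝓞 K)))
    fun x y hxy => congrArg (fun z => z.1) hxy

omit [NumberField K] in
/-- a field which contains a square root of a negative integer has no real embedding -/
theorem no_real {s : K} {a : ℤ} (hs : s ^ 2 = a) (ha : a < 0) : IsEmpty (K →+* ℝ) := by
  refine ⟨fun f => ?_⟩
  have h1 := congrArg f hs
  rw [map_pow, map_intCast] at h1
  have h2 : (a : ℝ) < 0 := by exact_mod_cast ha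
  have h3 := sq_nonneg (f s)
  rw [h1] at h3
  linarith

end Pool.Agent.Lib.MP_1a91b9_ntW.J
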