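import Pool.Agent.Lib.MP_1a91b9_ntW.J.TrK
import Pool.Agent.Lib.MP_1a91b9_ntI.LsI
import Pool.Agent.Lib.MP_1a91b9_ntL.Endo2
import Pool.Agent.Lib.MP_1a91b9_nt.VcPoint

/-!
# The rank part over Kummer extensions: the quadratic twists of an arbitrary equation

`twd W x`: the quadratic twist of `W` by `x`. `MQW K l H W c`: the result for the twists of `W`. It does
not depend on the equation of the curve (`MQW.vc`), and for `y² = x³ + a x² + b x` it is
`MQG K l H a b c`.
-/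

set_option autoImplicit false

namespace Pool.Agent.Lib.MP_1a91b9_ntW.J

open NumberField WeierstrassCurve
open Pool.Agent.Lib.MP_1a91b9_nuI (HasJ hasJ_change)
open Pool.Agent.Lib.MP_1a91b9_ntL (crv)

noncomputable section

/-- The quadratic twist by `x` of the curve `W`, that is, of
`y² = x³ + (b₂ / 4) x² + (b₄ / 2) x + b₆ / 4`. -/
def twd {K : Type*} [Field K] (W : WeierstrassCurve K) (x : K) : WeierstrassCurve K :=
  ⟨0, x * W.b₂ / 4, 0, x ^ 2 * W.b₄ / 2, x ^ 3 * W.b₆ / 4⟩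

section
variable {K : Type*} [Field K] [CharZero K]

omit [CharZero K] in
theorem twd_map {F : Type*} [Field F] (f : K →+* F) (W : WeierstrassCurve K) (x : K) :
    (twd W x).map f = twd (W.map f) (f x) := by
  rw [twd, twd, map_b₂, map_b₄, map_b₆]
  refine WeierstrassCurve.ext ?_ ?_ ?_ ?_ ?_
  · exact map_zero _
  · show f (x * W.b₂ / 4) = f x * f W.b₂ / 4
    rw [map_div₀, map_mul, map_ofNat]
  · exact map_zero _
  · show f (x ^ 2 * W.b₄ / 2) = f x ^ 2 * f W.b₄ / 2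
    rw [map_div₀, map_mul, map_pow, map_ofNat]
  · show f (x ^ 3 * W.b₆ / 4) = f x ^ 3 * f W.b₆ / 4
    rw [map_div₀, map_mul, map_pow, map_ofNat]

theorem twd_crv (a b x : K) : twd (crv a b) x = ⟨0, x * a, 0, x ^ 2 * b, 0⟩ := by
  have h2 : (2 : K) ≠ 0 := two_ne_zero
  have h4 : (4 : K) ≠ 0 := by norm_num
  unfold twd crv WeierstrassCurve.b₂ WeierstrassCurve.b₄ WeierstrassCurve.b₆
  refine WeierstrassCurve.ext rfl ?_ rfl ?_ ?_
  · show x * (0 ^ 2 + 4 * a) / 4 = x * a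
    field_simp
    ring
  · show x ^ 2 * (2 * b + 0 * 0) / 2 = x ^ 2 * b
    field_simp
    ring
  · show x ^ 3 * (0 ^ 2 + 4 * 0) / 4 = 0
    ring

/-- The twist does not depend on the equation. -/
theorem twd_vc (W : WeierstrassCurve K) (C : VariableChange K) (x : K) :
    (⟨C.u, x * C.r, 0, 0⟩ : VariableChange K) • twd W x = twd (C • W) x := by
  have h2 : (2 : K) ≠ 0 := two_ne_zero
  have h4 : (4 : K) ≠ 0 := by norm_num
  have e2 := W.variableChange_b₂ C
  have e4 := W.variableChange_b₄ C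
  have e6 := W.variableChange_b₆ C
  refine WeierstrassCurve.ext ?_ ?_ ?_ ?_ ?_
  · rw [variableChange_a₁]
    show ((C.u⁻¹ : Kˣ) : K) * (0 + 2 * 0) = 0
    ring
  · rw [variableChange_a₂]
    show ((C.u⁻¹ : Kˣ) : K) ^ 2 * (x * W.b₂ / 4 - 0 * 0 + 3 * (x * C.r) - 0 ^ 2) =
      x * (C • W).b₂ / 4
    rw [e2]
    field_simp
    ring
  · rw [variableChange_a₃]
    show ((C.u⁻¹ : Kˣ) : K) ^ 3 * (0 + x * C.r * 0 + 2 * 0) = 0
    ring
  · rw [variableChange_a₄]
    show ((C.u⁻¹ : Kˣ) : K) ^ 4 * (x ^ 2 * W.b₄ / 2 - 0 * 0 + 2 * (x * C.r) * (x * W.b₂ / 4) -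
      (0 + x * C.r * 0) * 0 + 3 * (x * C.r) ^ 2 - 2 * 0 * 0) = x ^ 2 * (C • W).b₄ / 2
    rw [e4]
    field_simp
    ring
  · rw [variableChange_a₆]
    show ((C.u⁻¹ : Kˣ) : K) ^ 6 * (x ^ 3 * W.b₆ / 4 + x * C.r * (x ^ 2 * W.b₄ / 2) +
      (x * C.r) ^ 2 * (x * W.b₂ / 4) + (x * C.r) ^ 3 - 0 * 0 - 0 ^ 2 - x * C.r * 0 * 0) =
        x ^ 3 * (C • W).b₆ / 4
    rw [e6]
    field_simp
    ring

theorem twd_hasJ {W : WeierstrassCurve K} {j : ℤ} (h : HasJ W j) (x : K) : HasJ (twd W x) j := by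
  have h2 : (2 : K) ≠ 0 := two_ne_zero
  have h4 : (4 : K) ≠ 0 := by norm_num
  have e2 : (twd W x).b₂ = x * W.b₂ := by
    show (0 : K) ^ 2 + 4 * (x * W.b₂ / 4) = _
    field_simp
    ring
  have e4 : (twd W x).b₄ = x ^ 2 * W.b₄ := by
    show 2 * (x ^ 2 * W.b₄ / 2) + 0 * 0 = _
    field_simp
    ring
  have e6 : (twd W x).b₆ = x ^ 3 * W.b₆ := by
    show (0 : K) ^ 2 + 4 * (x ^ 3 * W.b₆ / 4) = _
    field_simp
    ring
  have r1 := W.b_relation
  have r2 := (twd W x).b_relation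
  rw [e2, e4, e6] at r2
  have e8 : (twd W x).b₈ = x ^ 4 * W.b₈ := by
    refine mul_left_cancel₀ h4 ?_
    linear_combination r2 - x ^ 4 * r1
  have c4 : (twd W x).c₄ = x ^ 2 * W.c₄ := by
    unfold WeierstrassCurve.c₄
    rw [e2, e4]
    ring
  have hΔ : (twd W x).Δ = x ^ 6 * W.Δ := by
    unfold WeierstrassCurve.Δ
    rw [e2, e4, e6, e8]
    ring
  unfold HasJ at h ⊢
  rw [c4, hΔ, mul_pow, h]
  ring

end

theorem hasJ_map {K F : Type*} [Field K] [Field F] (f : K →+* F) {W : WeierstrassCurve K} {j : ℤ}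
    (h : HasJ W j) : HasJ (W.map f) j := by
  unfold HasJ at h ⊢
  rw [map_c₄, map_Δ, ← map_pow, h, map_mul, map_intCast]

/-- The conclusion does not depend on the equation. -/
theorem RkZ.vc {F : Type} [Field F] [NumberField F] {W : WeierstrassCurve F} {j : ℤ}
    (hj : HasJ W j) (C : VariableChange F) : RkZ (C • W) ↔ RkZ W := by
  classical
  obtain ⟨e, -⟩ := Pool.Agent.Lib.MP_1a91b9_nt.exists_point_equiv W C
  have h1 : ∀ s, (C • W).LSeries s = W.LSeries s :=
    fun s => Pool.Agent.Lib.MP_1a91b9_ntI.ls_vc W C j hj s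
  unfold RkZ
  rw [e.toEquiv.finite_iff]
  simp only [h1]

/-- The result for the twists of `W`. -/
def MQW (K : Type) [Field K] [NumberField K] (l : ℕ) (H : 𝓞 K → 𝓞 K → Prop)
    (W : WeierstrassCurve K) (c : ℝ) : Prop :=
  ∀ (F : Type) [Field F] [NumberField F] [Algebra K F],
    IntermediateField.adjoin K {x : F | ∃ c : K, x ^ l = algebraMap K F c} = ⊤ →
    ∀ m u : 𝓞 K, H m u →
    PropGE K m u (fun d => RkZ ((twd W (d : K)).map (algebraMap K F))) (c ^ Module.finrank K F)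

/-- for `y² = x³ + a x² + b x` -/
theorem mqw_crv {K : Type} [Field K] [NumberField K] {l : ℕ} {H : 𝓞 K → 𝓞 K → Prop} {a b : K}
    {c : ℝ} : MQW K l H (crv a b) c ↔ MQG K l H a b c := by
  have e : ∀ (F : Type) [Field F] [NumberField F] [Algebra K F],
      (fun d : 𝓞 K => RkZ ((twd (crv a b) (d : K)).map (algebraMap K F))) =
      fun d : 𝓞 K => RkZ (⟨0, algebraMap K F (d * a), 0, algebraMap K F ((d : K) ^ 2 * b), 0⟩ :
        WeierstrassCurve F) := by
    intro F _ _ _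
    funext d
    rw [twd_crv]
    congr 1
    exact WeierstrassCurve.ext (map_zero _) rfl (map_zero _) rfl (map_zero _)
  constructor
  · intro h F _ _ _ hF m u hmu
    have h1 := h F hF m u hmu
    rw [e F] at h1
    exact h1
  · intro h F _ _ _ hF m u hmu
    rw [e F]
    exact h F hF m u hmu

theorem MQG.mqw {K : Type} [Field K] [NumberField K] {l : ℕ} {H : 𝓞 K → 𝓞 K → Prop} {a b : K}
    {c : ℝ} (h : MQG K l H a b c) : MQW K l H (crv a b) c := mqw_crv.2 h

/-- **The result does not depend on the equation.** -/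
theorem MQW.vc {K : Type} [Field K] [NumberField K] {l : ℕ} {H : 𝓞 K → 𝓞 K → Prop}
    {W : WeierstrassCurve K} {j : ℤ} (hj : HasJ W j) (C : VariableChange K) {c : ℝ}
    (h : MQW K l H (C • W) c) : MQW K l H W c := by
  intro F _ _ _ hF m u hmu
  have h1 := h F hF m u hmu
  have e : (fun d : 𝓞 K => RkZ ((twd (C • W) (d : K)).map (algebraMap K F))) =
      fun d : 𝓞 K => RkZ ((twd W (d : K)).map (algebraMap K F)) := by
    funext d
    rw [← twd_vc W C, ← WeierstrassCurve.map_variableChange]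
    exact propext (RkZ.vc (hasJ_map _ (twd_hasJ hj _)) _)
  rw [e] at h1
  exact h1

/-- The result for a curve isomorphic to `y² = x³ + a x² + b x`. -/
theorem MQG.mqw_vc {K : Type} [Field K] [NumberField K] {l : ℕ} {H : 𝓞 K → 𝓞 K → Prop} {a b : K} {c : ℝ}
    (h : MQG K l H a b c) {W : WeierstrassCurve K} {j : ℤ} (hj : HasJ (crv a b) j)
    {C : VariableChange K} (hC : C • W = crv a b) : MQW K l H W c := by
  have h1 : HasJ W j := by
    have h2 := hasJ_change (crv a b) C⁻¹ j hj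
    rwa [← hC, inv_smul_smul] at h2
  refine MQW.vc h1 C ?_
  rw [hC]
  exact h.mqw

/-- the choice of the point of order two does not matter -/
theorem MQG.congr {K : Type} [Field K] [NumberField K] {l : ℕ} {H : 𝓞 K → 𝓞 K → Prop}
    {a b a' b' : K} {c : ℝ} (h : MQG K l H a b c) {j : ℤ} (hj : HasJ (crv a b) j)
    {C : VariableChange K} (hC : C • crv a' b' = crv a b) : MQG K l H a' b' c :=
  mqw_crv.1 (h.mqw_vc hj hC)

end

end Pool.Agent.Lib.MP_1a91b9_ntW.J
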