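import Mathlib

/-!
# The rank part over Kummer extensions: transport along an isomorphism of number fields

`MQG K l H a b c`: for every finite extension `F` of `K` generated by `l`-th roots of elements of `K`,
and every class `u` modulo `m` with `H m u`, the proportion of the squarefree `d` in the class for
which the L-series of `y² = x³ + d a x² + d² b x` over `F` is entire and not zero at `1` and the group
of points over `F` is finite is at least `c ^ [F : K] - ε`. `MQC K a b c`: for `l = 2` and all the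
classes modulo a divisor of a power of `2` which contain squarefree elements.
-/

set_option autoImplicit false

namespace Pool.Agent.Lib.MP_1a91b9_ntW.J

open NumberField

noncomputable section

/-- The L-series of `W` continues to an entire function which is not zero at `1`, and `W` has
finitely many points. -/
def RkZ {F : Type} [Field F] [NumberField F] (W : WeierstrassCurve F) : Prop :=
  (∃ g : ℂ → ℂ, Differentiable ℂ g ∧ (∀ s : ℂ, 3 / 2 < s.re → g s = W.LSeries s) ∧ g 1 ≠ 0) ∧
    Finite W.toAffine.Point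

/-- The property `P` holds for at least the proportion `c` of the squarefree `d` congruent to `u`
modulo `m`, ordered by the norm. -/
def PropGE (K : Type) [Field K] [NumberField K] (m u : 𝓞 K) (P : 𝓞 K → Prop) (c : ℝ) : Prop :=
  ∀ ε : ℝ, 0 < ε → ∀ᶠ X : ℝ in Filter.atTop, c - ε ≤
    (Nat.card {d : 𝓞 K // Squarefree d ∧ m ∣ d - u ∧ |Algebra.norm ℤ d| ≤ X ∧ P d} : ℝ) /
      (Nat.card {d : 𝓞 K // Squarefree d ∧ m ∣ d - u ∧ |Algebra.norm ℤ d| ≤ X} : ℝ)

/-- The result over the extensions generated by `l`-th roots. -/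
def MQG (K : Type) [Field K] [NumberField K] (l : ℕ) (H : 𝓞 K → 𝓞 K → Prop) (a b : K) (c : ℝ) :
    Prop :=
  ∀ (F : Type) [Field F] [NumberField F] [Algebra K F],
    IntermediateField.adjoin K {x : F | ∃ c : K, x ^ l = algebraMap K F c} = ⊤ →
    ∀ m u : 𝓞 K, H m u →
    PropGE K m u (fun d => RkZ (⟨0, algebraMap K F (d * a), 0, algebraMap K F ((d : K) ^ 2 * b), 0⟩ :
      WeierstrassCurve F)) (c ^ Module.finrank K F)

/-- `m` divides a power of `2`, and the class `u` modulo `m` contains squarefree elements. -/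
def Cls2 (K : Type) [Field K] [NumberField K] (m u : 𝓞 K) : Prop :=
  (∃ n : ℕ, m ∣ 2 ^ n) ∧ ∀ p : 𝓞 K, Prime p → ¬ (p ^ 2 ∣ m ∧ p ^ 2 ∣ u)

/-- The result for the extensions generated by square roots and all the classes modulo a divisor of a
power of `2`. -/
def MQC (K : Type) [Field K] [NumberField K] (a b : K) (c : ℝ) : Prop := MQG K 2 (Cls2 K) a b c

theorem norm_mapRingEquiv {K K' : Type*} [Field K] [NumberField K] [Field K'] [NumberField K']
    (e : K' ≃+* K) (d : 𝓞 K') :
    Algebra.norm ℤ (RingOfIntegers.mapRingEquiv e d) = Algebra.norm ℤ d :=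
  Algebra.norm_eq_of_algEquiv
    (AlgEquiv.ofRingEquiv (f := RingOfIntegers.mapRingEquiv e) fun n => by
      rw [eq_intCast, eq_intCast, map_intCast] : 𝓞 K' ≃ₐ[ℤ] 𝓞 K) d

theorem squarefree_equiv {R R' : Type*} [CommRing R] [CommRing R'] (e : R ≃+* R') {x : R} :
    Squarefree (e x) ↔ Squarefree x := by
  constructor
  · intro h y hy
    have h1 := h (e y) (by
      rw [← map_mul]
      exact map_dvd e hy)
    exact (MulEquiv.isUnit_map e).1 h1
  · intro h y hy
    have h1 := h (e.symm y) (by
      rw [← map_mul]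
      have h2 := map_dvd e.symm hy
      rwa [e.symm_apply_apply] at h2)
    exact (MulEquiv.isUnit_map e.symm).1 h1

/-- **Transport of the density.** -/
theorem PropGE.tr {K K' : Type} [Field K] [NumberField K] [Field K'] [NumberField K']
    (e : K' ≃+* K) {m u : 𝓞 K} {P : 𝓞 K → Prop} {c : ℝ}
    (h : PropGE K' ((RingOfIntegers.mapRingEquiv e).symm m) ((RingOfIntegers.mapRingEquiv e).symm u)
      (fun d => P (RingOfIntegers.mapRingEquiv e d)) c) : PropGE K m u P c := by
  intro ε hε
  filter_upwards [h ε hε] with X hX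
  have key : ∀ d : 𝓞 K', (Squarefree d ∧ (RingOfIntegers.mapRingEquiv e).symm m ∣
      d - (RingOfIntegers.mapRingEquiv e).symm u ∧ |Algebra.norm ℤ d| ≤ X) ↔
      (Squarefree (RingOfIntegers.mapRingEquiv e d) ∧ m ∣ RingOfIntegers.mapRingEquiv e d - u ∧
        |Algebra.norm ℤ (RingOfIntegers.mapRingEquiv e d)| ≤ X) := by
    intro d
    rw [squarefree_equiv, norm_mapRingEquiv]
    refine and_congr_right fun _ => and_congr_left fun _ => ?_
    constructor
    · intro h
      have h1 := map_dvd (RingOfIntegers.mapRingEquiv e) h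
      rwa [map_sub, RingEquiv.apply_symm_apply, RingEquiv.apply_symm_apply] at h1
    · intro h
      have h1 := map_dvd (RingOfIntegers.mapRingEquiv e).symm h
      rwa [map_sub, RingEquiv.symm_apply_apply] at h1
  have h1 : Nat.card {d : 𝓞 K' // Squarefree d ∧ (RingOfIntegers.mapRingEquiv e).symm m ∣
      d - (RingOfIntegers.mapRingEquiv e).symm u ∧ |Algebra.norm ℤ d| ≤ X} =
      Nat.card {d : 𝓞 K // Squarefree d ∧ m ∣ d - u ∧ |Algebra.norm ℤ d| ≤ X} :=
    Nat.card_congr ((RingOfIntegers.mapRingEquiv e).toEquiv.subtypeEquiv fun d => key d)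
  have h2 : Nat.card {d : 𝓞 K' // Squarefree d ∧ (RingOfIntegers.mapRingEquiv e).symm m ∣
      d - (RingOfIntegers.mapRingEquiv e).symm u ∧ |Algebra.norm ℤ d| ≤ X ∧
        P (RingOfIntegers.mapRingEquiv e d)} =
      Nat.card {d : 𝓞 K // Squarefree d ∧ m ∣ d - u ∧ |Algebra.norm ℤ d| ≤ X ∧ P d} := by
    refine Nat.card_congr ((RingOfIntegers.mapRingEquiv e).toEquiv.subtypeEquiv fun d => ?_)
    have h3 := key d
    constructor
    · rintro ⟨a, b, c, p⟩
      obtain ⟨a', b', c'⟩ := h3.1 ⟨a, b, c⟩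
      exact ⟨a', b', c', p⟩
    · rintro ⟨a, b, c, p⟩
      obtain ⟨a', b', c'⟩ := h3.2 ⟨a, b, c⟩
      exact ⟨a', b', c', p⟩
  rw [h1, h2] at hX
  exact hX

/-- **Transport of the result.** -/
theorem MQG.tr {K K' : Type} [Field K] [NumberField K] [Field K'] [NumberField K']
    (e : K' ≃+* K) {l : ℕ} {H' : 𝓞 K' → 𝓞 K' → Prop} {H : 𝓞 K → 𝓞 K → Prop}
    (hH : ∀ m u, H m u → H' ((RingOfIntegers.mapRingEquiv e).symm m)
      ((RingOfIntegers.mapRingEquiv e).symm u))
    {a b : K'} {c : ℝ} (h : MQG K' l H' a b c) : MQG K l H (e a) (e b) c := by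
  intro F _ _ _ hF m u hmu
  let _ : Algebra K' F := ((algebraMap K F).comp (e : K' →+* K)).toAlgebra
  have hal : ∀ y : K', algebraMap K' F y = algebraMap K F (e y) := fun _ => rfl
  have hF' : IntermediateField.adjoin K' {x : F | ∃ c : K', x ^ l = algebraMap K' F c} = ⊤ := by
    have hset : {x : F | ∃ c : K', x ^ l = algebraMap K' F c} =
        {x : F | ∃ c : K, x ^ l = algebraMap K F c} := by
      ext x
      constructor
      · rintro ⟨c, hc⟩
        exact ⟨e c, hc⟩
      · rintro ⟨c, hc⟩
        refine ⟨e.symm c, ?_⟩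
        rw [hal, e.apply_symm_apply, hc]
    rw [eq_top_iff]
    intro x _
    have hx : x ∈ IntermediateField.adjoin K {x : F | ∃ c : K, x ^ l = algebraMap K F c} := by
      rw [hF]
      exact IntermediateField.mem_top
    rw [hset]
    rw [← IntermediateField.mem_toSubfield, IntermediateField.adjoin_toSubfield] at hx ⊢
    have hr : Set.range (algebraMap K' F) = Set.range (algebraMap K F) := by
      ext y
      constructor
      · rintro ⟨z, rfl⟩
        exact ⟨e z, rfl⟩
      · rintro ⟨z, rfl⟩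
        exact ⟨e.symm z, by rw [hal, e.apply_symm_apply]⟩
    rw [hr]
    exact hx
  have hfin : Module.finrank K' F = Module.finrank K F := by
    have h1 : Module.finrank ℚ K' * Module.finrank K' F = Module.finrank ℚ F :=
      Module.finrank_mul_finrank ℚ K' F
    have h2 : Module.finrank ℚ K * Module.finrank K F = Module.finrank ℚ F :=
      Module.finrank_mul_finrank ℚ K F
    have h3 : Module.finrank ℚ K' = Module.finrank ℚ K :=
      (RingEquiv.toRatAlgEquiv e).toLinearEquiv.finrank_eq
    rw [← h2, ← h3] at h1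
    exact Nat.eq_of_mul_eq_mul_left Module.finrank_pos h1
  have h1 := h F hF' ((RingOfIntegers.mapRingEquiv e).symm m)
    ((RingOfIntegers.mapRingEquiv e).symm u) (hH m u hmu)
  rw [hfin] at h1
  refine PropGE.tr e ?_
  have e1 : ∀ d : 𝓞 K', (⟨0, algebraMap K' F (d * a), 0, algebraMap K' F ((d : K') ^ 2 * b), 0⟩ :
      WeierstrassCurve F) = ⟨0, algebraMap K F ((RingOfIntegers.mapRingEquiv e d : 𝓞 K) * e a), 0,
        algebraMap K F (((RingOfIntegers.mapRingEquiv e d : 𝓞 K) : K) ^ 2 * e b), 0⟩ := by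
    intro d
    rw [hal, hal, map_mul e, map_mul e, map_pow e, RingOfIntegers.mapRingEquiv_apply]
  have e2 : (fun d : 𝓞 K' => RkZ (⟨0, algebraMap K F ((RingOfIntegers.mapRingEquiv e d : 𝓞 K) * e a),
      0, algebraMap K F (((RingOfIntegers.mapRingEquiv e d : 𝓞 K) : K) ^ 2 * e b), 0⟩ :
        WeierstrassCurve F)) = fun d : 𝓞 K' => RkZ (⟨0, algebraMap K' F (d * a), 0,
          algebraMap K' F ((d : K') ^ 2 * b), 0⟩ : WeierstrassCurve F) := by
    funext d
    rw [e1]
  have e3 := h1
  rw [← e2] at e3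
  exact e3

theorem Cls2.tr {K K' : Type} [Field K] [NumberField K] [Field K'] [NumberField K']
    (e : K' ≃+* K) (m u : 𝓞 K) (h : Cls2 K m u) :
    Cls2 K' ((RingOfIntegers.mapRingEquiv e).symm m) ((RingOfIntegers.mapRingEquiv e).symm u) := by
  obtain ⟨⟨n, hn⟩, h⟩ := h
  refine ⟨⟨n, ?_⟩, fun p hp => ?_⟩
  · have h2 := map_dvd (RingOfIntegers.mapRingEquiv e).symm hn
    rwa [map_pow, map_ofNat] at h2
  · rintro ⟨h2, h3⟩
    refine h (RingOfIntegers.mapRingEquiv e p) ?_ ⟨?_, ?_⟩
    · exact (MulEquiv.prime_iff (RingOfIntegers.mapRingEquiv e).toMulEquiv).2 hp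
    · have h4 := map_dvd (RingOfIntegers.mapRingEquiv e) h2
      rwa [map_pow, RingEquiv.apply_symm_apply] at h4
    · have h4 := map_dvd (RingOfIntegers.mapRingEquiv e) h3
      rwa [map_pow, RingEquiv.apply_symm_apply] at h4

/-- **Transport of the result.** -/
theorem MQC.tr {K K' : Type} [Field K] [NumberField K] [Field K'] [NumberField K']
    (e : K' ≃+* K) {a b : K'} {c : ℝ} (h : MQC K' a b c) : MQC K (e a) (e b) c :=
  MQG.tr e (Cls2.tr e) h

end

end Pool.Agent.Lib.MP_1a91b9_ntW.J
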