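import Pool.Agent.Lib.MP_1a91b9_ntW.DJ.Dsj8
import Pool.Agent.Lib.MP_1a91b9_ntW.C.PtsW
import Pool.Agent.Lib.MP_1a91b9_ntW.L.Top8
import Pool.Agent.Lib.MP_1a91b9_ntW.F.FormW
import Pool.Agent.Lib.MP_1a91b9_ntW.T.Per8
import Pool.Agent.Lib.MP_1a91b9_ntW.J.TrK
import Pool.Agent.Lib.MP_1a91b9_ntY.Fms
import Pool.Agent.Lib.MP_1a91b9_ntI.Qd

/-!
# Phase 7, `ℚ(√-2)`: the rank part of the conjecture of Birch and Swinnerton-Dyer for the curves
`y² = x³ + 4 d x² + 2 d² x` over all the multiquadratic extensions of `ℚ(√-2)`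
-/

set_option autoImplicit false

namespace Pool.Agent.Lib.MP_1a91b9_ntW.J

open NumberField IsDedekindDomain Finset WeierstrassCurve
open Pool.Agent.Lib.MP_1a91b9_ntW
open Pool.Agent.Lib.MP_1a91b9_nuX.LG (LConcl)
open Pool.Agent.Lib.MP_1a91b9_ntN.G (MQT)
open Pool.Agent.Lib.MP_1a91b9_ntY (Tdq chainQ lconcl_iso finite_iso finite_iso' fm_q)
open Pool.Agent.Lib.MP_1a91b9_ntQ (em em_ne exists_B2)
open Pool.Agent.Lib.MP_1a91b9_nuX.PH (Fm)

noncomputable section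

/-! ### Over `K8` -/

/-- The L-value does not vanish. -/
theorem LG_ne8 {k j : ZMod 2} {S : Finset Pg} (h : GW k j S ≠ 0) : LG Pr (X8 k j S) 1 ≠ 0 := by
  obtain ⟨B, hB⟩ := exists_B2
  have hz : F.zW k j S ≠ 0 := (F.Rt_zW hB k j S).ne_zero h
  intro h0
  have h1 := F.norm_L8 k j S
  rw [h0, norm_zero, zero_pow two_ne_zero, zero_mul, eq_comm, div_eq_zero_iff] at h1
  rcases h1 with h1 | h1
  · have h2 : ‖F.zW k j S‖ ≠ 0 := norm_ne_zero_iff.2 hz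
    have h3 : ‖om‖ ≠ 0 := norm_ne_zero_iff.2 om_ne
    have h4 : (F.EW S : ℝ) ≠ 0 := by exact_mod_cast F.EW_ne S
    have h5 : F.kW j S ≠ 0 := by
      unfold F.kW
      split_ifs <;> norm_num
    exact mul_ne_zero (pow_ne_zero 2 h2) (mul_ne_zero (pow_ne_zero 2 h3) (mul_ne_zero h4 h5)) h1
  · exact norm_ne_zero_iff.2 (em_ne (DD_ne S)) h1

/-- **Over `K8`.** -/
theorem WW_good {k j : ZMod 2} {S : Finset Pg} (h : GW k j S ≠ 0) :
    LConcl (WW (dW k j S)) ∧ Finite (WW (dW k j S)).toAffine.Point :=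
  ⟨L.LW_ne k j S (LG_ne8 h), (C.ptsW h).1⟩

/-! ### The curves -/

/-- the curve `y² = x³ + 4 δ x² + 2 δ² x` -/
def c8 {F : Type*} [Field F] (δ : F) : WeierstrassCurve F := ⟨0, 4 * δ, 0, 2 * δ ^ 2, 0⟩

theorem WW_c8 (d : 𝓞 K8) : WW d = c8 (d : K8) := rfl

theorem Tdq_c8 (F : Type*) [Field F] [Algebra K8 F] (d : 𝓞 K8) :
    Tdq F (4 : K8) 2 0 d = c8 (algebraMap K8 F d) := by
  show (⟨0, algebraMap K8 F ((d : K8) * 4), 0, algebraMap K8 F ((d : K8) ^ 2 * 2),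
    algebraMap K8 F ((d : K8) ^ 3 * 0)⟩ : WeierstrassCurve F) =
      ⟨0, 4 * algebraMap K8 F d, 0, 2 * (algebraMap K8 F d) ^ 2, 0⟩
  rw [map_mul, map_mul, map_pow, mul_zero, map_zero, map_ofNat, map_ofNat, mul_comm _ (4 : F),
    mul_comm _ (2 : F)]

theorem c8_iso {F : Type*} [Field F] (δ : F) {t : F} (ht : t ≠ 0) :
    (⟨Units.mk0 t ht, 0, 0, 0⟩ : VariableChange F) • c8 (δ * t ^ 2) = c8 δ := by
  rw [c8, c8]
  ext
  · simp [variableChange_a₁]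
  · simp only [variableChange_a₂, Units.val_inv_eq_inv_val, Units.val_mk0]
    field_simp
    ring
  · simp [variableChange_a₃]
  · simp only [variableChange_a₄, Units.val_inv_eq_inv_val, Units.val_mk0]
    field_simp
    ring
  · simp [variableChange_a₆]

theorem ellK8 : Pool.Agent.Lib.MP_1a91b9_nuX.GL.EllK :=
  Pool.Agent.Lib.MP_1a91b9_nuX.GL.ellK_two (by decide)

/-- the form of the curve -/
theorem fm8 {F : Type*} [Field F] [NumberField F] [Algebra K8 F] {δ : F} (hδ : δ ≠ 0) :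
    Fm (c8 δ) := by
  refine fm_q (δ := -δ / 36) ?_ ?_ ?_
  · exact div_ne_zero (neg_ne_zero.2 hδ) (by norm_num)
  · show 2 * δ ^ 2 - (4 * δ) ^ 2 / 3 = (-δ / 36) ^ 2 * (((-4320 : ℤ) : ℤ) : F)
    push_cast
    ring
  · show 0 - 4 * δ * (2 * δ ^ 2) / 3 + 2 * (4 * δ) ^ 3 / 27 =
      (-δ / 36) ^ 3 * (((-96768 : ℤ) : ℤ) : F)
    push_cast
    ring

/-- the conclusion does not change if `δ` is multiplied by a square -/
theorem c8_sq {F : Type*} [Field F] [NumberField F] [Algebra K8 F] {δ t : F} (hδ : δ ≠ 0)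
    (ht : t ≠ 0) :
    (LConcl (c8 (δ * t ^ 2)) ∧ Finite (c8 (δ * t ^ 2)).toAffine.Point) ↔
      (LConcl (c8 δ) ∧ Finite (c8 δ).toAffine.Point) := by
  have h1 := c8_iso δ ht
  constructor
  · rintro ⟨h2, h3⟩
    exact ⟨lconcl_iso ellK8 (fm8 (mul_ne_zero hδ (pow_ne_zero 2 ht))) _ h1 h2,
      finite_iso _ h1 h3⟩
  · rintro ⟨h2, h3⟩
    refine ⟨lconcl_iso ellK8 (fm8 hδ) (⟨Units.mk0 t ht, 0, 0, 0⟩ : VariableChange F)⁻¹ ?_ h2,
      finite_iso' _ h1 h3⟩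
    rw [← h1, inv_smul_smul]

/-- **All the twists.** -/
theorem WW_all {a d : 𝓞 K8} (h : ∃ (k j : ZMod 2) (S : Finset Pg) (t : 𝓞 K8),
    t ≠ 0 ∧ a * d = dW k j S * t ^ 2 ∧ GW k j S ≠ 0) :
    LConcl (WW (a * d)) ∧ Finite (WW (a * d)).toAffine.Point := by
  obtain ⟨k, j, S, t, ht, h1, hG⟩ := h
  have e : ((dW k j S * t ^ 2 : 𝓞 K8) : K8) = (dW k j S : K8) * (t : K8) ^ 2 := by
    push_cast
    rfl
  rw [h1, WW_c8, e]
  exact (c8_sq (C.dW_ne' k j S) (by exact_mod_cast ht)).2 (WW_good hG)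

/-! ### The result -/

theorem exists_sq_mul {d₀ : K8} : ∃ (δ ν : 𝓞 K8), ν ≠ 0 ∧ (δ : K8) = d₀ * (ν : K8) ^ 2 := by
  obtain ⟨⟨x, y⟩, hxy⟩ := IsLocalization.surj (nonZeroDivisors (𝓞 K8)) d₀
  refine ⟨x * y, y, nonZeroDivisors.ne_zero y.2, ?_⟩
  have e : ((x * (y : 𝓞 K8) : 𝓞 K8) : K8) = (x : K8) * ((y : 𝓞 K8) : K8) := by
    push_cast
    rfl
  have h : d₀ * (((y : 𝓞 K8) : 𝓞 K8) : K8) = ((x : 𝓞 K8) : K8) := hxy
  rw [e, ← h]
  ring

/-- **The rank part over every multiquadratic extension of `ℚ(√-2)`.** -/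
theorem main_mq8 (F : Type) [Field F] [NumberField F] [Algebra K8 F]
    (hF : IntermediateField.adjoin K8 {x : F | ∃ c : K8, x ^ 2 = algebraMap K8 F c} = ⊤)
    {d₀ : K8} (hd₀ : d₀ ≠ 0)
    {n : ℕ} {m u : 𝓞 K8} (hm : m ∣ 2 ^ n) (hu : ¬ ((2 : 𝓞 K8) ∣ m ∧ (2 : 𝓞 K8) ∣ u)) :
    PropGE K8 m u (fun d => RkZ (c8 (algebraMap K8 F (d₀ * d))))
      ((∏' i : ℕ, (1 + 1 / (2 : ℝ) ^ (i + 1))⁻¹) ^ Module.finrank K8 F) := by
  intro ε hε
  obtain ⟨A, hA⟩ := MQT.exists_of hF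
  have hok := hA.ok
  obtain ⟨δ, ν, hν, hδν⟩ := exists_sq_mul (d₀ := d₀)
  have hν' : (ν : K8) ≠ 0 := by exact_mod_cast hν
  have hδ' : (δ : K8) ≠ 0 := by
    rw [hδν]
    exact mul_ne_zero hd₀ (pow_ne_zero 2 hν')
  have hδ : δ ≠ 0 := by exact_mod_cast hδ'
  have hlen : (A.map (δ * ·)).length = Module.finrank K8 F := by
    rw [List.length_map, hok.len]
  rw [← hlen]
  refine den8_all dsj8 (L := A.map (δ * ·)) ?_ ?_ ?_ hm hu _ (fun d hd h => ?_) ε hε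
  · intro h0
    rw [h0, List.length_nil] at hlen
    exact absurd hlen.symm (Module.finrank_pos (R := K8) (M := F)).ne'
  · intro a ha
    obtain ⟨b, hb, rfl⟩ := List.mem_map.1 ha
    exact mul_ne_zero hδ (hok.ne b hb)
  · rw [List.pairwise_map]
    refine hok.pw.imp fun {a b} h => ?_
    rintro ⟨y, hy⟩
    refine h ⟨y / (δ : K8), ?_⟩
    have e : ((δ * a : 𝓞 K8) : K8) * ((δ * b : 𝓞 K8) : K8) =
        (δ : K8) ^ 2 * ((a : K8) * (b : K8)) := by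
      have e1 : ((δ * a : 𝓞 K8) : K8) = (δ : K8) * a := by
        push_cast
        rfl
      have e2 : ((δ * b : 𝓞 K8) : K8) = (δ : K8) * b := by
        push_cast
        rfl
      rw [e1, e2]
      ring
    rw [div_pow, hy, e]
    field_simp
  · have h1 : LConcl (Tdq F (4 : K8) 2 0 (δ * d)) ∧
        Finite (Tdq F (4 : K8) 2 0 (δ * d)).toAffine.Point := by
      refine chainQ ellK8 ?_ hA (δ * d) (mul_ne_zero hδ hd.ne_zero) fun b hb => ?_
      · have h1 := fm8 (F := K8) (δ := 1) one_ne_zero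
        rw [c8, mul_one, one_pow, mul_one] at h1
        exact h1
      · have h3 := WW_all (h (δ * b) (List.mem_map.2 ⟨b, hb, rfl⟩))
        have e : b * (δ * d) = δ * b * d := by ring
        have e2 := Tdq_c8 K8 (b * (δ * d))
        have e3 : Tdq K8 (4 : K8) 2 0 (b * (δ * d)) = WW (δ * b * d) := by
          rw [e2, ← e]
          rfl
        rw [← e3] at h3
        exact h3
    rw [Tdq_c8] at h1
    have hd0 : (d : K8) ≠ 0 := by exact_mod_cast hd.ne_zero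
    have e : algebraMap K8 F ((δ * d : 𝓞 K8) : K8) =
        algebraMap K8 F (d₀ * d) * (algebraMap K8 F (ν : K8)) ^ 2 := by
      have e1 : ((δ * d : 𝓞 K8) : K8) = (δ : K8) * d := by
        push_cast
        rfl
      rw [e1, hδν, ← map_pow (algebraMap K8 F), ← map_mul (algebraMap K8 F)]
      congr 1
      ring
    rw [e] at h1
    refine (c8_sq ?_ ?_).1 h1
    · rw [Ne, map_eq_zero]
      exact mul_ne_zero hd₀ hd0
    · rw [Ne, map_eq_zero]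
      exact hν'

theorem cls8 {m u : 𝓞 K8} (h : Cls2 K8 m u) : ¬ ((2 : 𝓞 K8) ∣ m ∧ (2 : 𝓞 K8) ∣ u) := by
  rintro ⟨h1, h2⟩
  have h3 : (lam ^ 2 : 𝓞 K8) ∣ 2 := ⟨-1, by
    rw [lam8_sq]
    ring⟩
  exact h.2 lam lam_prime ⟨h3.trans h1, h3.trans h2⟩

/-- The form for the curves `y² = x³ + a x² + b x` with `a² = 8 b`. -/
theorem mqc8 {a b : K8} (hab : a ^ 2 = 8 * b) (hb : b ≠ 0) :
    MQC K8 a b (∏' i : ℕ, (1 + 1 / (2 : ℝ) ^ (i + 1))⁻¹) := by
  intro F _ _ _ hF m u hmu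
  obtain ⟨n, hn⟩ := hmu.1
  have ha : a ≠ 0 := by
    rintro rfl
    rw [zero_pow two_ne_zero, eq_comm, mul_eq_zero] at hab
    exact hab.elim (by norm_num) hb
  have h1 := main_mq8 F hF (d₀ := a / 4) (div_ne_zero ha (by norm_num)) hn (cls8 hmu)
  have e : ∀ d : 𝓞 K8, c8 (algebraMap K8 F (a / 4 * d)) =
      ⟨0, algebraMap K8 F (d * a), 0, algebraMap K8 F ((d : K8) ^ 2 * b), 0⟩ := by
    intro d
    have e1 : (d : K8) * a = 4 * (a / 4 * d) := by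
      field_simp
    have hb8 : b = a ^ 2 / 8 := by
      rw [hab, mul_div_cancel_left₀ _ (by norm_num : (8 : K8) ≠ 0)]
    have e2 : (d : K8) ^ 2 * b = 2 * (a / 4 * d) ^ 2 := by
      rw [hb8]
      ring
    rw [e1, e2, map_mul _ 4, map_mul _ 2, map_pow, map_ofNat, map_ofNat]
    rfl
  have e' : (fun d : 𝓞 K8 => RkZ (c8 (algebraMap K8 F (a / 4 * d)))) =
      fun d : 𝓞 K8 => RkZ (⟨0, algebraMap K8 F (d * a), 0, algebraMap K8 F ((d : K8) ^ 2 * b), 0⟩ :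
        WeierstrassCurve F) := by
    funext d
    rw [e]
  rw [e'] at h1
  exact h1

/-- **The rank part over every multiquadratic extension of a field generated by a square root of
`-2`.** -/
theorem mqcK8 {K : Type} [Field K] [NumberField K] (hK : Module.finrank ℚ K = 2) {s : K}
    (hs : s ^ 2 = -2) {a b : K} (hab : a ^ 2 = 8 * b) (hb : b ≠ 0) :
    MQC K a b (∏' i : ℕ, (1 + 1 / (2 : ℝ) ^ (i + 1))⁻¹) := by
  have hl : (lam8 : K8) ^ 2 = -2 := by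
    have h1 := congrArg (fun x : 𝓞 K8 => (x : K8)) lam8_sq
    push_cast at h1
    exact h1
  obtain ⟨e⟩ := Pool.Agent.Lib.MP_1a91b9_ntI.exists_iso_pq
    Pool.Agent.Lib.MP_1a91b9_ntW.T.finrank_K8 hK (t := 0) (n := 2) (by norm_num) (s := (lam8 : K8))
    (by rw [hl]; push_cast; ring) (s' := s) (by rw [hs]; push_cast; ring)
  have h1 : MQC K8 (e.symm a) (e.symm b) (∏' i : ℕ, (1 + 1 / (2 : ℝ) ^ (i + 1))⁻¹) := by
    refine mqc8 ?_ ?_
    · rw [← map_pow, hab, map_mul, map_ofNat]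
    · rw [Ne, map_eq_zero_iff _ e.symm.injective]
      exact hb
  have h2 := h1.tr e
  rwa [e.apply_symm_apply, e.apply_symm_apply] at h2

end

end Pool.Agent.Lib.MP_1a91b9_ntW.J
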