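import Pool.Agent.Lib.MP_1a91b9_ntM.Q.Fin
import Pool.Agent.Lib.MP_1a91b9_ntQ.R.Ring4
import Pool.Agent.Lib.MP_1a91b9_ntW.J.TwK
import Pool.Agent.Lib.MP_1a91b9_ntI.Qd

/-!
# The curves `y² = x³ - δ² x` over the multiquadratic extensions of `ℚ(i)`, in the general form
-/

set_option autoImplicit false

namespace Pool.Agent.Lib.MP_1a91b9_ntW.J

open NumberField IsDedekindDomain Finset WeierstrassCurve
open Pool.Agent.Lib.MP_1a91b9_ntQ Pool.Agent.Lib.MP_1a91b9_ntM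
open Pool.Agent.Lib.MP_1a91b9_nuX.LG (LConcl)
open Pool.Agent.Lib.MP_1a91b9_nuI (HasJ)
open Pool.Agent.Lib.MP_1a91b9_ntL (crv)

noncomputable section

/-- a nonzero element is an algebraic integer up to squares -/
theorem exists_sq_mul4 {d₀ : K4} : ∃ (δ ν : 𝓞 K4), ν ≠ 0 ∧ (δ : K4) = d₀ * (ν : K4) ^ 2 := by
  obtain ⟨⟨x, y⟩, hxy⟩ := IsLocalization.surj (nonZeroDivisors (𝓞 K4)) d₀
  refine ⟨x * y, y, nonZeroDivisors.ne_zero y.2, ?_⟩
  have e : ((x * (y : 𝓞 K4) : 𝓞 K4) : K4) = (x : K4) * ((y : 𝓞 K4) : K4) := by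
    push_cast
    rfl
  have h : d₀ * (((y : 𝓞 K4) : 𝓞 K4) : K4) = ((x : 𝓞 K4) : K4) := hxy
  rw [e, ← h]
  ring

theorem hasJ_crv4 {K : Type*} [Field K] (b : K) : HasJ (crv 0 b) 1728 := by
  unfold HasJ crv WeierstrassCurve.c₄ WeierstrassCurve.Δ WeierstrassCurve.b₂ WeierstrassCurve.b₄
    WeierstrassCurve.b₆ WeierstrassCurve.b₈
  push_cast
  ring

/-- the conclusion for `y² = x³ + b x` depends only on `b` modulo fourth powers -/
theorem c4_fourth {F : Type} [Field F] [NumberField F] (b : F) {t : F} (ht : t ≠ 0) :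
    RkZ (crv 0 (b * t ^ 4)) ↔ RkZ (crv 0 b) := by
  have h1 : (⟨Units.mk0 t ht, 0, 0, 0⟩ : VariableChange F) • crv 0 (b * t ^ 4) = crv 0 b := by
    rw [crv, crv]
    ext
    · simp [variableChange_a₁]
    · simp [variableChange_a₂]
    · simp [variableChange_a₃]
    · simp only [variableChange_a₄, Units.val_inv_eq_inv_val, Units.val_mk0]
      field_simp
      ring
    · simp [variableChange_a₆]
  rw [← h1]
  exact (RkZ.vc (hasJ_crv4 _) _).symm

/-- **The curves `y² = x³ - (d₀ d)² x`.** -/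
theorem main_mq4 (F : Type) [Field F] [NumberField F] [Algebra K4 F]
    (hF : IntermediateField.adjoin K4 {x : F | ∃ c : K4, x ^ 2 = algebraMap K4 F c} = ⊤)
    {d₀ : K4} (hd₀ : d₀ ≠ 0)
    {n : ℕ} {m u : 𝓞 K4} (hm : m ∣ 2 ^ n) (hu : ¬ ((2 : 𝓞 K4) ∣ m ∧ (2 : 𝓞 K4) ∣ u)) :
    PropGE K4 m u (fun d => RkZ (crv 0 (-(algebraMap K4 F (d₀ * d)) ^ 2)))
      ((∏' i : ℕ, (1 + 1 / (2 : ℝ) ^ (i + 1))⁻¹) ^ Module.finrank K4 F) := by
  intro ε hε
  obtain ⟨A, hA⟩ := MQT.exists_of hF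
  have hok := hA.ok
  obtain ⟨δ, ν, hν, hδν⟩ := exists_sq_mul4 (d₀ := d₀)
  have hν' : (ν : K4) ≠ 0 := by exact_mod_cast hν
  have hδ' : (δ : K4) ≠ 0 := by
    rw [hδν]
    exact mul_ne_zero hd₀ (pow_ne_zero 2 hν')
  have hδ : δ ≠ 0 := by exact_mod_cast hδ'
  have hlen : (A.map (δ * ·)).length = Module.finrank K4 F := by
    rw [List.length_map, hok.len]
  rw [← hlen]
  refine den_all dsj (A := A.map (δ * ·)) ?_ ?_ ?_ hm hu _ (fun d hd h => ?_) ε hε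
  · intro h0
    rw [h0, List.length_nil] at hlen
    exact absurd hlen.symm (Module.finrank_pos (R := K4) (M := F)).ne'
  · intro a ha
    obtain ⟨b, hb, rfl⟩ := List.mem_map.1 ha
    exact mul_ne_zero hδ (hok.ne b hb)
  · rw [List.pairwise_map]
    refine hok.pw.imp fun {a b} h => ?_
    rintro ⟨y, hy⟩
    refine h ⟨y / (δ : K4), ?_⟩
    have e : ((δ * a : 𝓞 K4) : K4) * ((δ * b : 𝓞 K4) : K4) =
        (δ : K4) ^ 2 * ((a : K4) * (b : K4)) := by
      have e1 : ((δ * a : 𝓞 K4) : K4) = (δ : K4) * a := by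
        push_cast
        rfl
      have e2 : ((δ * b : 𝓞 K4) : K4) = (δ : K4) * b := by
        push_cast
        rfl
      rw [e1, e2]
      ring
    rw [div_pow, hy, e]
    field_simp
  · have h1 : LConcl (Wd F (δ * d)) ∧ Finite (Wd F (δ * d)).toAffine.Point := by
      refine chain (chainHyp bad_two) hA (δ * d) (mul_ne_zero hδ hd.ne_zero) fun b hb => ?_
      have h3 := Wd_good (h (δ * b) (List.mem_map.2 ⟨b, hb, rfl⟩))
      have e : b * (δ * d) = δ * b * d := by ring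
      rw [e]
      exact h3
    have h2 : RkZ (crv 0 (-(algebraMap K4 F ((δ * d : 𝓞 K4) : K4)) ^ 2)) := h1
    have e : -(algebraMap K4 F ((δ * d : 𝓞 K4) : K4)) ^ 2 =
        -(algebraMap K4 F (d₀ * d)) ^ 2 * (algebraMap K4 F (ν : K4)) ^ 4 := by
      have e1 : ((δ * d : 𝓞 K4) : K4) = (δ : K4) * d := by
        push_cast
        rfl
      rw [e1, hδν, ← map_pow (algebraMap K4 F), ← map_pow (algebraMap K4 F),
        ← map_pow (algebraMap K4 F), neg_mul, ← map_mul (algebraMap K4 F)]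
      congr 2
      ring
    rw [e, c4_fourth _ (by rw [Ne, map_eq_zero]; exact hν')] at h2
    exact h2

theorem cls4 {m u : 𝓞 K4} (h : Cls2 K4 m u) : ¬ ((2 : 𝓞 K4) ∣ m ∧ (2 : 𝓞 K4) ∣ u) := by
  rintro ⟨h1, h2⟩
  have h3 : (lam ^ 2 : 𝓞 K4) ∣ 2 := ⟨-iO, by
    rw [two_eq]
    ring⟩
  exact h.2 lam prime_lam ⟨h3.trans h1, h3.trans h2⟩

/-- The form for the curves `y² = x³ - δ² x`. -/
theorem mqc4_sq {δ : K4} (hδ : δ ≠ 0) :
    MQC K4 0 (-δ ^ 2) (∏' i : ℕ, (1 + 1 / (2 : ℝ) ^ (i + 1))⁻¹) := by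
  intro F _ _ _ hF m u hmu
  obtain ⟨n, hn⟩ := hmu.1
  have h1 := main_mq4 F hF hδ hn (cls4 hmu)
  have e' : (fun d : 𝓞 K4 => RkZ (crv 0 (-(algebraMap K4 F (δ * d)) ^ 2))) =
      fun d : 𝓞 K4 => RkZ (⟨0, algebraMap K4 F (d * 0), 0,
        algebraMap K4 F ((d : K4) ^ 2 * -δ ^ 2), 0⟩ : WeierstrassCurve F) := by
    funext d
    congr 1
    refine WeierstrassCurve.ext rfl ?_ rfl ?_ rfl
    · show (0 : F) = algebraMap K4 F (d * 0)
      rw [mul_zero, map_zero]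
    · show -(algebraMap K4 F (δ * d)) ^ 2 = algebraMap K4 F ((d : K4) ^ 2 * -δ ^ 2)
      rw [← map_pow, ← map_neg]
      congr 1
      ring
  rw [e'] at h1
  exact h1

theorem finrank_K4 : Module.finrank ℚ K4 = 2 := by
  rw [IsCyclotomicExtension.finrank K4 (Polynomial.cyclotomic.irreducible_rat (by norm_num : 0 < 4))]
  rfl

/-- an isomorphism -/
theorem iso_K4 {K : Type} [Field K] [NumberField K] (hK : Module.finrank ℚ K = 2) {i : K}
    (hi : i ^ 2 = -1) : Nonempty (K4 ≃+* K) :=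
  Pool.Agent.Lib.MP_1a91b9_ntI.exists_iso_pq finrank_K4 hK (t := 0) (n := 1) (by norm_num)
    (s := iK) (by rw [iK_sq]; push_cast; ring) (s' := i) (by rw [hi]; push_cast; ring)

/-- **The curves `y² = x³ - δ² x` over a field generated by a square root of `-1`.** -/
theorem mqcK4_sq {K : Type} [Field K] [NumberField K] (hK : Module.finrank ℚ K = 2) {i : K}
    (hi : i ^ 2 = -1) {δ : K} (hδ : δ ≠ 0) :
    MQC K 0 (-δ ^ 2) (∏' i : ℕ, (1 + 1 / (2 : ℝ) ^ (i + 1))⁻¹) := by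
  obtain ⟨e⟩ := iso_K4 hK hi
  have h1 : MQC K4 0 (-(e.symm δ) ^ 2) (∏' i : ℕ, (1 + 1 / (2 : ℝ) ^ (i + 1))⁻¹) := by
    refine mqc4_sq ?_
    rw [Ne, map_eq_zero_iff _ e.symm.injective]
    exact hδ
  have h2 := h1.tr e
  rwa [map_zero, map_neg, map_pow, e.apply_symm_apply] at h2

end

end Pool.Agent.Lib.MP_1a91b9_ntW.J
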