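import Pool.Agent.Lib.MP_1a91b9_ntW.J.KStar
import Pool.Agent.Lib.MP_1a91b9_ntW.J.Main4

/-!
# The inputs over `ℚ(i)` and `ℚ(√-3)`, from those over the standard models
-/

set_option autoImplicit false

namespace Pool.Agent.Lib.MP_1a91b9_ntW.J

open NumberField WeierstrassCurve
open Pool.Agent.Lib.MP_1a91b9_ntL (Endo2 crv endo2_iff)
open Pool.Agent.Lib.MP_1a91b9_ntI (excl1 excl3 th7 K3 iso_w3)
open Pool.Agent.Lib.MP_1a91b9_ntQ (K4)

noncomputable section

/-- over a field generated by a square root of `-1` -/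
theorem h4_of (h : ∀ {b : K4}, b ≠ 0 → MQG K4 4 (Cls2 K4) 0 b cR) {K : Type} [Field K]
    [NumberField K] (hK : Module.finrank ℚ K = 2) {i : K} (hi : i ^ 2 = -1) {W : WeierstrassCurve K}
    (hW : Endo2 W) : MQW K 4 (Cls2 K) W cR := by
  rcases (endo2_iff W).1 hW with ⟨i', b, -, hb, C, hC⟩ | ⟨s, d, hs, -, -⟩ | ⟨θ, d, hθ, -, -⟩
  · obtain ⟨e⟩ := iso_K4 hK hi
    have h1 : MQG K4 4 (Cls2 K4) 0 (e.symm b) cR := by
      refine h ?_
      rw [Ne, map_eq_zero_iff _ e.symm.injective]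
      exact hb
    have h2 := MQG.tr e (Cls2.tr e) h1
    rw [map_zero, e.apply_symm_apply] at h2
    exact h2.mqw_vc (hasJ_crv4 b) hC
  · exact (excl1 hK hs hi).elim
  · exact (excl3 hK (th7 hθ) hi).elim

/-- over a field generated by a square root of `-3` -/
theorem h3_of (h : ∀ {e : K3}, e ≠ 0 → MQG K3 2 (fun m _ => m = 1) (-3 * e) (3 * e ^ 2) cI)
    {K : Type} [Field K] [NumberField K] (hK : Module.finrank ℚ K = 2) {s : K} (hs : s ^ 2 = -3)
    {e : K} (he : e ≠ 0) : MQG K 2 (fun m _ => m = 1) (-3 * e) (3 * e ^ 2) cI := by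
  obtain ⟨w, hw⟩ : ∃ w : K, w = (1 + s) / 2 := ⟨_, rfl⟩
  have hsw : s = 2 * w - 1 := by
    rw [hw, mul_div_cancel₀ _ (two_ne_zero' K)]
    ring
  have hw2 : w ^ 2 = w - 1 := by
    have h4 : (4 : K) ≠ 0 := by norm_num
    rw [hsw] at hs
    refine mul_left_cancel₀ h4 ?_
    linear_combination hs
  obtain ⟨θ', -, hθ'⟩ := to_int (x := w) (t := 1) (n := 1) (by rw [hw2]; push_cast; ring)
  have hθ2 : θ' ^ 2 = θ' - 1 := by rw [hθ']; push_cast; ring
  obtain ⟨f, -⟩ := iso_w3 hK hθ2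
  have h1 : MQG K3 2 (fun m _ => m = 1) (-3 * f.symm e) (3 * (f.symm e) ^ 2) cI := by
    refine h ?_
    rw [Ne, map_eq_zero_iff _ f.symm.injective]
    exact he
  have h2 := MQG.tr f (H := fun m _ => m = 1) (fun m u hm => by rw [hm, map_one]) h1
  rwa [map_mul, map_mul, map_neg, map_pow, map_ofNat, f.apply_symm_apply] at h2

end

end Pool.Agent.Lib.MP_1a91b9_ntW.J
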