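import Pool.Agent.Lib.MP_1a91b9_ntM.E.Main8X
import Pool.Agent.Lib.MP_1a91b9_ntM.E.XFin
import Pool.Agent.Lib.MP_1a91b9_ntW.J.KSt2

/-!
# The curves `y² = x³ + b x` over the extensions of `ℚ(i)` generated by fourth roots, in the general form
-/

set_option autoImplicit false

namespace Pool.Agent.Lib.MP_1a91b9_ntW.J

open NumberField WeierstrassCurve
open Pool.Agent.Lib.MP_1a91b9_ntQ (K4)
open Pool.Agent.Lib.MP_1a91b9_ntL (Endo2 crv)

noncomputable section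

/-- a nonzero element is an algebraic integer up to fourth powers -/
theorem exists_fourth_mul4 {b : K4} : ∃ (D ν : 𝓞 K4), ν ≠ 0 ∧ (D : K4) = b * (ν : K4) ^ 4 := by
  obtain ⟨⟨x, y⟩, hxy⟩ := IsLocalization.surj (nonZeroDivisors (𝓞 K4)) b
  refine ⟨x * y ^ 3, y, nonZeroDivisors.ne_zero y.2, ?_⟩
  have e : ((x * (y : 𝓞 K4) ^ 3 : 𝓞 K4) : K4) = (x : K4) * ((y : 𝓞 K4) : K4) ^ 3 := by
    push_cast
    rfl
  have h : b * (((y : 𝓞 K4) : 𝓞 K4) : K4) = ((x : 𝓞 K4) : K4) := hxy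
  rw [e, ← h]
  ring

/-- **The curves `y² = x³ + b x` over `ℚ(i)`.** -/
theorem mqgX {b : K4} (hb : b ≠ 0) : MQG K4 4 (Cls2 K4) 0 b cR := by
  intro F _ _ _ hF m u hmu ε hε
  obtain ⟨n, hn⟩ := hmu.1
  obtain ⟨D, ν, hν, hD⟩ := exists_fourth_mul4 (b := -b)
  have hν' : (ν : K4) ≠ 0 := by exact_mod_cast hν
  have hD0 : D ≠ 0 := by
    intro h0
    rw [h0] at hD
    have h1 : -b * (ν : K4) ^ 4 = 0 := by
      rw [← hD]
      exact map_zero (algebraMap (𝓞 K4) K4)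
    exact (mul_ne_zero (neg_ne_zero.2 hb) (pow_ne_zero 4 hν')) h1
  have h1 := Pool.Agent.Lib.MP_1a91b9_ntM.E.main8X Pool.Agent.Lib.MP_1a91b9_ntM.E.dsjX F hF hD0 hn
    (cls4 hmu) ε hε
  filter_upwards [h1] with X hX
  refine hX.trans (le_of_eq ?_)
  congr 2
  refine Nat.card_congr (Equiv.subtypeEquivRight fun d => ?_)
  refine and_congr_right fun _ => and_congr_right fun _ => and_congr_right fun _ => ?_
  have e1 : (⟨0, 0, 0, -algebraMap K4 F ((D * d ^ 2 : 𝓞 K4) : K4), 0⟩ : WeierstrassCurve F) =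
      crv 0 (algebraMap K4 F ((d : K4) ^ 2 * b) * (algebraMap K4 F (ν : K4)) ^ 4) := by
    refine WeierstrassCurve.ext rfl rfl rfl ?_ rfl
    show -algebraMap K4 F ((D * d ^ 2 : 𝓞 K4) : K4) =
      algebraMap K4 F ((d : K4) ^ 2 * b) * (algebraMap K4 F (ν : K4)) ^ 4
    have e2 : ((D * d ^ 2 : 𝓞 K4) : K4) = (D : K4) * (d : K4) ^ 2 := by
      push_cast
      rfl
    rw [e2, hD, ← map_pow (algebraMap K4 F), ← map_mul (algebraMap K4 F), ← map_neg (algebraMap K4 F)]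
    congr 1
    ring
  have e3 : (⟨0, algebraMap K4 F (d * 0), 0, algebraMap K4 F ((d : K4) ^ 2 * b), 0⟩ :
      WeierstrassCurve F) = crv 0 (algebraMap K4 F ((d : K4) ^ 2 * b)) := by
    refine WeierstrassCurve.ext rfl ?_ rfl rfl rfl
    show algebraMap K4 F (d * 0) = 0
    rw [mul_zero, map_zero]
  rw [e3, ← c4_fourth (algebraMap K4 F ((d : K4) ^ 2 * b)) (t := algebraMap K4 F (ν : K4))
    (by rw [Ne, map_eq_zero]; exact hν'), ← e1]
  exact ⟨fun h => h _ rfl, fun h W hW => hW ▸ h⟩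

/-- **Over every field generated by a square root of `-1`.** -/
theorem mqwX {K : Type} [Field K] [NumberField K] (hK : Module.finrank ℚ K = 2) {i : K}
    (hi : i ^ 2 = -1) {W : WeierstrassCurve K} (hW : Endo2 W) : MQW K 4 (Cls2 K) W cR :=
  h4_of (fun hb => mqgX hb) hK hi hW

end

end Pool.Agent.Lib.MP_1a91b9_ntW.J
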