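import Pool.Agent.Lib.MP_1a91b9_ntW.J.Main8
import Pool.Agent.Lib.MP_1a91b9_ntW.J.TwK
import Pool.Agent.Lib.MP_1a91b9_ntI.EndI

/-!
# Phase 7, `ℚ(√-2)`: all the elliptic curves with complex multiplication by `ℤ[√-2]` and all the
multiquadratic extensions
-/

set_option autoImplicit false

namespace Pool.Agent.Lib.MP_1a91b9_ntW.J

open NumberField WeierstrassCurve
open Pool.Agent.Lib.MP_1a91b9_ntL (Endo2 crv endo2_iff)
open Pool.Agent.Lib.MP_1a91b9_ntI (excl1 excl2 th7)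
open Pool.Agent.Lib.MP_1a91b9_nuI (HasJ)

theorem hasJ_crv8 {K : Type*} [Field K] (d : K) : HasJ (crv (4 * d) (2 * d ^ 2)) 8000 := by
  unfold HasJ crv WeierstrassCurve.c₄ WeierstrassCurve.Δ WeierstrassCurve.b₂ WeierstrassCurve.b₄
    WeierstrassCurve.b₆ WeierstrassCurve.b₈
  push_cast
  ring

/-- **Every elliptic curve with an endomorphism of degree two over a quadratic field generated by a
square root of `-2`.** -/
theorem mqwK8 {K : Type} [Field K] [NumberField K] (hK : Module.finrank ℚ K = 2) {s : K}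
    (hs : s ^ 2 = -2) {W : WeierstrassCurve K} (hW : Endo2 W) :
    MQW K 2 (Cls2 K) W (∏' i : ℕ, (1 + 1 / (2 : ℝ) ^ (i + 1))⁻¹) := by
  rcases (endo2_iff W).1 hW with ⟨i, b, hi, -, -⟩ | ⟨s', d, -, hd, C, hC⟩ | ⟨θ, d, hθ, -, -⟩
  · exact (excl1 hK hs hi).elim
  · refine MQG.mqw_vc (mqcK8 hK hs (a := 4 * d) (b := 2 * d ^ 2) (by ring) ?_) (hasJ_crv8 d) hC
    exact mul_ne_zero two_ne_zero (pow_ne_zero 2 hd)
  · exact (excl2 hK hs (th7 hθ)).elim

end Pool.Agent.Lib.MP_1a91b9_ntW.J
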