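import Pool.Agent.Lib.MP_1a91b9_ntW.J.TwK
import Pool.Agent.Lib.MP_1a91b9_ntI.ClsI

/-!
# The curves with a given invariant: twists of one of them
-/

set_option autoImplicit false
set_option linter.unusedSectionVars false

namespace Pool.Agent.Lib.MP_1a91b9_ntW.J

open NumberField WeierstrassCurve
open Pool.Agent.Lib.MP_1a91b9_nuI (HasJ hasJ_change)
open Pool.Agent.Lib.MP_1a91b9_ntL (crv)
open Pool.Agent.Lib.MP_1a91b9_ntI (exists_change_of_c exists_twist)

section

variable {K : Type*} [Field K] [CharZero K]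

/-- the invariants of the twist -/
theorem crv_c4 (a b d : K) : (crv (d * a) (d ^ 2 * b)).c₄ = d ^ 2 * (crv a b).c₄ := by
  simp only [crv, c₄, b₂, b₄]
  ring

theorem crv_c6 (a b d : K) : (crv (d * a) (d ^ 2 * b)).c₆ = d ^ 3 * (crv a b).c₆ := by
  simp only [crv, c₆, b₂, b₄, b₆]
  ring

theorem crv_disc (a b : K) : (crv a b).Δ = 16 * (b ^ 2 * (a ^ 2 - 4 * b)) := by
  simp only [crv, Δ, b₂, b₄, b₆, b₈]
  ring

theorem crv_c4' (a b : K) : (crv a b).c₄ = 16 * (a ^ 2 - 3 * b) := by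
  simp only [crv, c₄, b₂, b₄]
  ring

theorem crv_c6' (a b : K) : (crv a b).c₆ = -32 * (a * (2 * a ^ 2 - 9 * b)) := by
  simp only [crv, c₆, b₂, b₄, b₆]
  ring

/-- the invariant, explicitly -/
theorem hasJ_crv_iff {a b : K} {j : ℤ} :
    HasJ (crv a b) j ↔ 256 * (a ^ 2 - 3 * b) ^ 3 = j * (b ^ 2 * (a ^ 2 - 4 * b)) := by
  unfold HasJ
  rw [crv_c4', crv_disc]
  have h16 : (16 : K) ≠ 0 := by norm_num
  constructor
  · intro h
    refine mul_left_cancel₀ h16 ?_
    linear_combination h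
  · intro h
    linear_combination 16 * h

/-- **Two elliptic curves with the same invariant, different from `0` and `1728`, are twists of each
other.** -/
theorem tw_of_j {j : ℤ} (h0 : j ≠ 0) (h1 : j ≠ 1728) {a b : K} (hE : (crv a b).Δ ≠ 0)
    (hj : HasJ (crv a b) j) {W : WeierstrassCurve K} (hWΔ : W.Δ ≠ 0) (hWj : HasJ W j) :
    ∃ δ : K, δ ≠ 0 ∧ ∃ C : VariableChange K, C • W = crv (δ * a) (δ ^ 2 * b) := by
  have h0' : (j : K) ≠ 0 := by exact_mod_cast h0
  have h1' : (j : K) - 1728 ≠ 0 := by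
    intro h
    apply h1
    have h2 : (j : K) = ((1728 : ℤ) : K) := by
      push_cast
      linear_combination h
    exact_mod_cast h2
  have hne4 : ∀ V : WeierstrassCurve K, V.Δ ≠ 0 → HasJ V j → V.c₄ ≠ 0 := by
    intro V hV h h4
    unfold HasJ at h
    rw [h4] at h
    have : (j : K) * V.Δ = 0 := by rw [← h]; ring
    exact (mul_ne_zero h0' hV) this
  have hne6 : ∀ V : WeierstrassCurve K, V.Δ ≠ 0 → HasJ V j → V.c₆ ≠ 0 := by
    intro V hV h h6
    unfold HasJ at h
    have hr := V.c_relation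
    rw [h6, h] at hr
    have : ((j : K) - 1728) * V.Δ = 0 := by linear_combination -hr
    exact (mul_ne_zero h1' hV) this
  obtain ⟨δ, hδ0, hδ4, hδ6⟩ := exists_twist (hne4 W hWΔ hWj) (hne6 W hWΔ hWj) (hne4 _ hE hj)
    (hne6 _ hE hj) (by
      have hrW := W.c_relation
      have hrE := (crv a b).c_relation
      unfold HasJ at hj hWj
      linear_combination (1728 * W.Δ) * hj - (1728 * (crv a b).Δ) * hWj + W.c₄ ^ 3 * hrE -
        (crv a b).c₄ ^ 3 * hrW)
  refine ⟨δ, hδ0, exists_change_of_c ?_ ?_⟩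
  · rw [crv_c4, hδ4]
  · rw [crv_c6, hδ6]

/-- the curves with the invariant `1728` -/
theorem crv_of_1728 {W : WeierstrassCurve K} (hWΔ : W.Δ ≠ 0) (hWj : HasJ W 1728) :
    ∃ b : K, b ≠ 0 ∧ ∃ C : VariableChange K, C • W = crv 0 b := by
  have h6 : W.c₆ = 0 := by
    have hr := W.c_relation
    unfold HasJ at hWj
    push_cast at hWj
    have h2 : W.c₆ ^ 2 = 0 := by linear_combination hWj + hr
    exact pow_eq_zero_iff two_ne_zero |>.1 h2
  have h4 : W.c₄ ≠ 0 := by
    intro h4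
    unfold HasJ at hWj
    push_cast at hWj
    rw [h4] at hWj
    have : (1728 : K) * W.Δ = 0 := by rw [← hWj]; ring
    exact (mul_ne_zero (by norm_num) hWΔ) this
  refine ⟨-W.c₄ / 48, div_ne_zero (neg_ne_zero.2 h4) (by norm_num), exists_change_of_c ?_ ?_⟩
  · rw [crv_c4']
    field_simp
    ring
  · rw [crv_c6', h6]
    ring

/-- `j = 0` -/
theorem crv_of_0 {a b : K} (h : HasJ (crv a b) 0) : a ^ 2 = 3 * b := by
  rw [hasJ_crv_iff] at h
  push_cast at h
  rw [zero_mul, mul_eq_zero] at h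
  rcases h with h | h
  · norm_num at h
  · have h2 := pow_eq_zero_iff three_ne_zero |>.1 h
    linear_combination h2

end

end Pool.Agent.Lib.MP_1a91b9_ntW.J
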