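import Pool.Agent.Lib.MP_1a91b9_ntW.J.Fin8
import Pool.Agent.Lib.MP_1a91b9_ntV.J.Fin7
import Pool.Agent.Lib.MP_1a91b9_ntY.Ord
import Pool.Agent.Lib.MP_1a91b9_ntI.KEq3
import Pool.Agent.Lib.MP_1a91b9_ntW.J.Jinv

/-!
# All the curves with complex multiplication and a point of order two, over all the extensions of
exponent two (exponent four if `i` is in `K`): assembly
-/

set_option autoImplicit false

namespace Pool.Agent.Lib.MP_1a91b9_ntW.J

open NumberField WeierstrassCurve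
open Pool.Agent.Lib.MP_1a91b9_ntL (Endo2 crv endo2_iff)
open Pool.Agent.Lib.MP_1a91b9_ntI (excl1 excl2 excl3 excl4 excl5 excl6 th7 nsf_i nsf_s sf_t np_t
  prime_w emp_t K3 iso_w3)
open Pool.Agent.Lib.MP_1a91b9_nuI (HasJ)
open Pool.Agent.Lib.MP_1a91b9_ntQ (K4)
open Pool.Agent.Lib.MP_1a91b9_ntY (CMK Pt2 star_endo)

noncomputable section

/-- the constant if `2` is ramified -/
def cR : ℝ := ∏' i : ℕ, (1 + 1 / (2 : ℝ) ^ (i + 1))⁻¹

/-- the constant if `2` splits -/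
def cS : ℝ := ∏' i : ℕ, (1 - 1 / (2 : ℝ) ^ (i + 1))

/-- the constant if `2` is inert -/
def cI : ℝ := ∏' i : ℕ, (1 + 1 / (2 : ℝ) ^ (2 * i + 1))⁻¹

/-! ### Generalities -/

/-- fewer classes -/
theorem MQW.imp {K : Type} [Field K] [NumberField K] {l : ℕ} {H H' : 𝓞 K → 𝓞 K → Prop}
    {W : WeierstrassCurve K} {c : ℝ} (h : MQW K l H W c) (hH : ∀ m u, H' m u → H m u) :
    MQW K l H' W c :=
  fun F _ _ _ hF m u hmu => h F hF m u (hH m u hmu)

/-- square roots are fourth roots -/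
theorem MQW.two_of_four {K : Type} [Field K] [NumberField K] {H : 𝓞 K → 𝓞 K → Prop}
    {W : WeierstrassCurve K} {c : ℝ} (h : MQW K 4 H W c) : MQW K 2 H W c := by
  intro F _ _ _ hF m u hmu
  refine h F ?_ m u hmu
  rw [eq_top_iff, ← hF]
  refine IntermediateField.adjoin.mono K _ _ ?_
  rintro x ⟨a, ha⟩
  refine ⟨a ^ 2, ?_⟩
  rw [map_pow, ← ha]
  ring

section
variable {K : Type} [Field K] [NumberField K]

omit [NumberField K] in
/-- the roots of `x² - t x + n` are integral -/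
theorem to_int {x : K} {t n : ℤ} (h : x ^ 2 = t * x - n) :
    ∃ y : 𝓞 K, (y : K) = x ∧ y ^ 2 = (t : 𝓞 K) * y - (n : 𝓞 K) := by
  have hint : IsIntegral ℤ x := by
    refine ⟨Polynomial.X ^ 2 + (Polynomial.C (-t) * Polynomial.X + Polynomial.C n), ?_, ?_⟩
    · refine Polynomial.monic_X_pow_add ?_
      refine (Polynomial.degree_linear_le).trans_lt ?_
      norm_num
    · rw [Polynomial.eval₂_add, Polynomial.eval₂_pow, Polynomial.eval₂_X, Polynomial.eval₂_add,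
        Polynomial.eval₂_mul, Polynomial.eval₂_X, Polynomial.eval₂_C, Polynomial.eval₂_C,
        eq_intCast, eq_intCast]
      push_cast
      linear_combination h
  obtain ⟨y, hy⟩ : ∃ y : 𝓞 K, algebraMap (𝓞 K) K y = x :=
    IsIntegralClosure.isIntegral_iff.1 hint
  refine ⟨y, hy, ?_⟩
  apply FaithfulSMul.algebraMap_injective (𝓞 K) K
  rw [map_pow, map_sub, map_mul, map_intCast, map_intCast, hy, h]

/-- The classes: `m` divides a power of `2` and the class contains squarefree elements; over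
`ℚ(√-3)` only `m = 1`. -/
def HS (K : Type) [Field K] [NumberField K] (m u : 𝓞 K) : Prop :=
  Cls2 K m u ∧ ((∃ s : K, s ^ 2 = -3) → m = 1)

/-- **The result**, from the results over `ℚ(i)` and `ℚ(√-3)`. -/
theorem kstar_of
    (H4 : ∀ {K : Type} [Field K] [NumberField K], Module.finrank ℚ K = 2 → ∀ {i : K}, i ^ 2 = -1 →
      ∀ {W : WeierstrassCurve K}, Endo2 W → MQW K 4 (Cls2 K) W cR)
    (H3 : ∀ {K : Type} [Field K] [NumberField K], Module.finrank ℚ K = 2 → ∀ {s : K}, s ^ 2 = -3 →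
      ∀ {e : K}, e ≠ 0 → MQG K 2 (fun m _ => m = 1) (-3 * e) (3 * e ^ 2) cI)
    (hK : Module.finrank ℚ K = 2) {l : ℕ} (hl : l = 2 ∨ l = 4 ∧ ∃ i : K, i ^ 2 = -1) {c : ℝ}
    (hI : Prime (2 : 𝓞 K) → c = cI)
    (hS : ¬ Prime (2 : 𝓞 K) → Squarefree (2 : 𝓞 K) → c = cS)
    (hR : ¬ Squarefree (2 : 𝓞 K) → c = cR) {W : WeierstrassCurve K} (hW : CMK W) (hP : Pt2 W) :
    MQW K l (HS K) W c := by
  refine star_endo hK (fun V hV => ?_) (fun hs e he => ?_) hW hP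
  · rcases (endo2_iff V).1 hV with ⟨i, b, hi, -, -⟩ | ⟨s, d, hs, -, -⟩ | ⟨θ, d, hθ, -, -⟩
    · obtain ⟨i', -, hi'⟩ := to_int (x := i) (t := 0) (n := 1) (by rw [hi]; push_cast; ring)
      have hi2 : i' ^ 2 = -1 := by rw [hi']; push_cast; ring
      rw [hR (nsf_i hK hi2)]
      have h4 := H4 hK hi hV
      rcases hl with rfl | ⟨rfl, -⟩
      · exact h4.two_of_four.imp fun m u h => h.1
      · exact h4.imp fun m u h => h.1
    · obtain ⟨s', -, hs'⟩ := to_int (x := s) (t := 0) (n := 2) (by rw [hs]; push_cast; ring)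
      have hs2 : s' ^ 2 = -2 := by rw [hs']; push_cast; ring
      rw [hR (nsf_s hK hs2)]
      rcases hl with rfl | ⟨-, i, hi⟩
      · exact (mqwK8 hK hs hV).imp fun m u h => h.1
      · exact (excl1 hK hs hi).elim
    · obtain ⟨θ', -, hθ'⟩ := to_int (x := θ) (t := 1) (n := 2) (by rw [hθ]; push_cast; ring)
      have hθ2 : θ' ^ 2 = θ' - 2 := by rw [hθ']; push_cast; ring
      rw [hS (np_t hK hθ2) (sf_t hK (emp_t hθ2) hθ2)]
      rcases hl with rfl | ⟨-, i, hi⟩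
      · exact (Pool.Agent.Lib.MP_1a91b9_ntV.J.mqwK7 hK hθ hV).imp fun m u h => h.1
      · exact (excl3 hK (th7 hθ) hi).elim
  · obtain ⟨s, hs⟩ := hs
    obtain ⟨w, hw⟩ : ∃ w : K, w = (1 + s) / 2 := ⟨_, rfl⟩
    have hsw : s = 2 * w - 1 := by
      rw [hw, mul_div_cancel₀ _ (two_ne_zero' K)]
      ring
    have hw2 : w ^ 2 = w - 1 := by
      have h4 : (4 : K) ≠ 0 := by norm_num
      rw [hsw] at hs
      refine mul_left_cancel₀ h4 ?_
      linear_combination hs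
    obtain ⟨θ', -, hθ'⟩ := to_int (x := w) (t := 1) (n := 1) (by rw [hw2]; push_cast; ring)
    have hθ2 : θ' ^ 2 = θ' - 1 := by rw [hθ']; push_cast; ring
    rw [hI (prime_w hK hθ2)]
    rcases hl with rfl | ⟨-, i, hi⟩
    · intro F _ _ _ hF m u hmu
      exact H3 hK hs he F hF m u (hmu.2 ⟨s, hs⟩)
    · exact (excl6 hK hi hs).elim

open Classical in
/-- **The result**, explicitly, from the results over `ℚ(i)` and `ℚ(√-3)`. -/
theorem kstar_expl
    (H4 : ∀ {K : Type} [Field K] [NumberField K], Module.finrank ℚ K = 2 → ∀ {i : K}, i ^ 2 = -1 →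
      ∀ {W : WeierstrassCurve K}, Endo2 W → MQW K 4 (Cls2 K) W cR)
    (H3 : ∀ {K : Type} [Field K] [NumberField K], Module.finrank ℚ K = 2 → ∀ {s : K}, s ^ 2 = -3 →
      ∀ {e : K}, e ≠ 0 → MQG K 2 (fun m _ => m = 1) (-3 * e) (3 * e ^ 2) cI)
    (hK : Module.finrank ℚ K = 2) (a b : K) (hE : b * (a ^ 2 - 4 * b) ≠ 0) (j D : ℤ)
    (hjD : (j, D) ∈ Pool.Agent.Lib.MP_1a91b9_ntY.cmList)
    (hj : 256 * (a ^ 2 - 3 * b) ^ 3 = j * (b ^ 2 * (a ^ 2 - 4 * b))) (hD : ∃ s : K, s ^ 2 = D)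
    (l : ℕ) (hl : l = 2 ∨ l = 4 ∧ ∃ i : K, i ^ 2 = -1)
    (F : Type) [Field F] [NumberField F] [Algebra K F]
    (hF : IntermediateField.adjoin K {x : F | ∃ c : K, x ^ l = algebraMap K F c} = ⊤)
    (n : ℕ) (m u : 𝓞 K) (hm : m ∣ 2 ^ n) (hu : ∀ p, Prime p → ¬ (p ^ 2 ∣ m ∧ p ^ 2 ∣ u))
    (h3 : (∃ s : K, s ^ 2 = -3) → m = 1) (c : ℝ)
    (hc : c = if Prime (2 : 𝓞 K) then ∏' i : ℕ, (1 + 1 / (2 : ℝ) ^ (2 * i + 1))⁻¹ else
      if Squarefree (2 : 𝓞 K) then ∏' i : ℕ, (1 - 1 / (2 : ℝ) ^ (i + 1)) else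
      ∏' i : ℕ, (1 + 1 / (2 : ℝ) ^ (i + 1))⁻¹) (ε : ℝ) (hε : 0 < ε) :
    ∀ᶠ X : ℝ in Filter.atTop, c ^ Module.finrank K F - ε ≤
      (Nat.card {d : 𝓞 K // Squarefree d ∧ m ∣ d - u ∧ |Algebra.norm ℤ d| ≤ X ∧
        ∀ W : WeierstrassCurve F,
          W = ⟨0, algebraMap K F (d * a), 0, algebraMap K F ((d : K) ^ 2 * b), 0⟩ →
          (∃ g : ℂ → ℂ, Differentiable ℂ g ∧ (∀ s : ℂ, 3 / 2 < s.re → g s = W.LSeries s) ∧
            g 1 ≠ 0) ∧ Finite W.toAffine.Point} : ℝ) /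
        (Nat.card {d : 𝓞 K // Squarefree d ∧ m ∣ d - u ∧ |Algebra.norm ℤ d| ≤ X} : ℝ) := by
  have hΔ : (crv a b).Δ ≠ 0 := by
    rw [crv_disc]
    have e : b ^ 2 * (a ^ 2 - 4 * b) = b * (b * (a ^ 2 - 4 * b)) := by ring
    rw [e]
    exact mul_ne_zero (by norm_num) (mul_ne_zero (left_ne_zero_of_mul hE) hE)
  obtain ⟨s, hs⟩ := hD
  have hW : CMK (crv a b) := ⟨hΔ, j, D, s, hjD, hs, hasJ_crv_iff.2 hj⟩
  have hP : Pt2 (crv a b) := by
    refine ⟨0, ?_⟩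
    unfold crv WeierstrassCurve.b₂ WeierstrassCurve.b₄ WeierstrassCurve.b₆
    ring
  have hps : Prime (2 : 𝓞 K) → Squarefree (2 : 𝓞 K) := fun h => h.irreducible.squarefree
  have h1 : MQW K l (HS K) (crv a b) c := by
    refine kstar_of H4 H3 hK hl (fun h => ?_) (fun h h' => ?_) (fun h => ?_) hW hP
    · rw [hc, if_pos h]
      rfl
    · rw [hc, if_neg h, if_pos h']
      rfl
    · rw [hc, if_neg (mt hps h), if_neg h]
      rfl
  have h2 := mqw_crv.1 h1 F hF m u ⟨⟨⟨n, hm⟩, hu⟩, h3⟩ ε hε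
  filter_upwards [h2] with X hX
  refine hX.trans (le_of_eq ?_)
  congr 2
  refine Nat.card_congr (Equiv.subtypeEquivRight fun d => ?_)
  refine and_congr_right fun _ => and_congr_right fun _ => and_congr_right fun _ => ?_
  exact ⟨fun h W hW => hW ▸ h, fun h => h _ rfl⟩

end

end

end Pool.Agent.Lib.MP_1a91b9_ntW.J
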